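import Mathlib

/-!
# Properties of schemes of finite type with two out of three
-/

set_option autoImplicit false

open CategoryTheory AlgebraicGeometry

namespace Pool.Agent.TH90.Cub

/-- `f : X ⟶ Spec k` is of finite type (and separated, if the proposition `sep` holds; so for
`sep = True` this says separated of finite type, for `sep = False` of finite type). -/
structure FT (sep : Prop) (k : Type) [CommRing k] {X : Scheme.{0}}
    (f : X ⟶ Spec (CommRingCat.of k)) : Prop where
  lft : LocallyOfFiniteType f
  qc : QuasiCompact f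
  sp : sep → IsSeparated f

/-- The structure morphism `Spec A ⟶ Spec k` of a `k`-algebra `A`. -/
noncomputable abbrev str (k A : Type) [CommRing k] [CommRing A] [Algebra k A] :
    Spec (CommRingCat.of A) ⟶ Spec (CommRingCat.of k) :=
  Spec.map (CommRingCat.ofHom (algebraMap k A))

/-- A property `P` of `k`-schemes is a *dévissage property* if it only depends on the isomorphism
class of the `k`-scheme, holds for the empty scheme, and for all closed `Z ⊆ X` with open
complement `U`, `X` of finite type over `k`: if `X` and `U` have `P`, so does `Z`; if `Z` and `U`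
have `P`, so does `X`. -/
structure IsDevissage (sep : Prop) (k : Type) [CommRing k]
    (P : ∀ X : Scheme.{0}, (X ⟶ Spec (CommRingCat.of k)) → Prop) : Prop where
  iso : ∀ {X Y : Scheme.{0}} (e : X ≅ Y) (g : Y ⟶ Spec (CommRingCat.of k)),
    FT sep k g → P X (e.hom ≫ g) → P Y g
  empty : ∀ {X : Scheme.{0}} (f : X ⟶ Spec (CommRingCat.of k)), IsEmpty X → P X f
  closed : ∀ {Z X U : Scheme.{0}} (f : X ⟶ Spec (CommRingCat.of k)) (i : Z ⟶ X) (j : U ⟶ X),
    FT sep k f → IsClosedImmersion i → IsOpenImmersion j → Set.range i = (Set.range j)ᶜ →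
    P X f → P U (j ≫ f) → P Z (i ≫ f)
  total : ∀ {Z X U : Scheme.{0}} (f : X ⟶ Spec (CommRingCat.of k)) (i : Z ⟶ X) (j : U ⟶ X),
    FT sep k f → IsClosedImmersion i → IsOpenImmersion j → Set.range i = (Set.range j)ᶜ →
    P Z (i ≫ f) → P U (j ≫ f) → P X f

/-- A *gate* in the variables `x_1, …, x_n` with constants in `S ⊆ k`: one of the polynomials
`x_a x_b - x_c`, `x_a + x_b - x_c` and `x_a - s` with `s ∈ S`. -/
inductive IsGate {k : Type} [CommRing k] (S : Set k) {n : ℕ} : MvPolynomial (Fin n) k → Prop
  | mul (a b c : Fin n) :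
      IsGate S (MvPolynomial.X a * MvPolynomial.X b - MvPolynomial.X c)
  | add (a b c : Fin n) :
      IsGate S (MvPolynomial.X a + MvPolynomial.X b - MvPolynomial.X c)
  | const (a : Fin n) (s : k) (hs : s ∈ S) : IsGate S (MvPolynomial.X a - MvPolynomial.C s)

/-- The coordinate ring `A[t_1, …, t_r]/(g_1 t_1 + ⋯ + g_r t_r - 1)`. -/
abbrev Hyp (A : Type) [CommRing A] {r : ℕ} (g : Fin r → A) : Type :=
  MvPolynomial (Fin r) A ⧸ Ideal.span
    {∑ i, MvPolynomial.C (g i) * MvPolynomial.X i - (1 : MvPolynomial (Fin r) A)}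

end Pool.Agent.TH90.Cub
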