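import Pool.Agent.TH90.Cub.Defs

set_option autoImplicit false

open MvPolynomial

namespace Pool.Agent.TH90.Cub

variable {k : Type} [CommRing k] {S : Set k}

/-- `v` generates `A`, with relations spanned by finitely many gates. -/
def Good (S : Set k) {A : Type} [CommRing A] [Algebra k A] {n : ℕ} (v : Fin n → A) : Prop :=
  Function.Surjective (aeval (R := k) v) ∧
    ∃ L : List (MvPolynomial (Fin n) k), (∀ g ∈ L, IsGate S g) ∧
      RingHom.ker (aeval (R := k) v) = Ideal.span {g | g ∈ L}

theorem IsGate.rename {n m : ℕ} (f : Fin n → Fin m) {g : MvPolynomial (Fin n) k}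
    (hg : IsGate S g) : IsGate S (MvPolynomial.rename f g) := by
  cases hg with
  | mul a b c => simpa using IsGate.mul (S := S) (f a) (f b) (f c)
  | add a b c => simpa using IsGate.add (S := S) (f a) (f b) (f c)
  | const a s hs => simpa using IsGate.const (S := S) (f a) s hs

variable {A : Type} [CommRing A] [Algebra k A]

theorem Good.ext {n : ℕ} {v : Fin n → A} (hv : Good S v) (e : MvPolynomial (Fin n) k)
    (g : MvPolynomial (Fin (n + 1)) k) (hg : IsGate S g)
    (hge : g = X (Fin.last n) - MvPolynomial.rename Fin.castSucc e ∨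
      g = MvPolynomial.rename Fin.castSucc e - X (Fin.last n)) :
    Good S (Fin.snoc (α := fun _ => A) v (aeval (R := k) v e)) := by
  set w : Fin (n + 1) → A := Fin.snoc (α := fun _ => A) v (aeval (R := k) v e) with hw
  have hwc : ∀ p : MvPolynomial (Fin n) k, aeval (R := k) w (MvPolynomial.rename Fin.castSucc p)
      = aeval (R := k) v p := by
    intro p
    rw [MvPolynomial.aeval_rename]
    congr 2
    funext i
    simp [hw]
  have hwl : aeval (R := k) w (X (Fin.last n)) = aeval (R := k) v e := by
    simp [hw]
  obtain ⟨hs, L, hL, hker⟩ := hv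
  refine ⟨fun a => ?_, g :: L.map (MvPolynomial.rename Fin.castSucc), ?_, ?_⟩
  · obtain ⟨p, hp⟩ := hs a
    exact ⟨MvPolynomial.rename Fin.castSucc p, by rw [hwc, hp]⟩
  · intro g' hg'
    rcases List.mem_cons.mp hg' with rfl | h
    · exact hg
    · obtain ⟨g0, h0, rfl⟩ := List.mem_map.mp h
      exact (hL g0 h0).rename _
  · set J : Ideal (MvPolynomial (Fin (n + 1)) k) :=
      Ideal.span {g' | g' ∈ g :: L.map (MvPolynomial.rename Fin.castSucc)} with hJ
    have hgJ : X (Fin.last n) - MvPolynomial.rename Fin.castSucc e ∈ J := by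
      have h1 : g ∈ J := Ideal.subset_span (by simp)
      rcases hge with h | h
      · rw [← h]; exact h1
      · have := J.neg_mem h1
        rw [h, neg_sub] at this
        exact this
    have hLJ : ∀ p ∈ RingHom.ker (aeval (R := k) v), MvPolynomial.rename Fin.castSucc p ∈ J := by
      intro p hp
      rw [hker] at hp
      have h2 : Ideal.span {g | g ∈ L} ≤ J.comap (MvPolynomial.rename Fin.castSucc).toRingHom := by
        rw [Ideal.span_le]
        intro g0 h0
        exact Ideal.subset_span (by
          simp only [List.mem_cons, List.mem_map, Set.mem_ofPred_eq]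
          exact Or.inr ⟨g0, h0, rfl⟩)
      exact h2 hp
    apply le_antisymm
    · intro p hp
      -- modulo `J` the last variable is `e`
      let σ : MvPolynomial (Fin (n + 1)) k →ₐ[k] MvPolynomial (Fin n) k :=
        aeval (Fin.snoc (α := fun _ => MvPolynomial (Fin n) k) X e)
      have hσ : ∀ q : MvPolynomial (Fin (n + 1)) k,
          q - MvPolynomial.rename Fin.castSucc (σ q) ∈ J := by
        intro q
        induction q using MvPolynomial.induction_on with
        | C a => simp [σ]
        | add p q hp hq =>
          have := J.add_mem hp hq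
          rw [map_add, map_add]
          convert this using 1
          ring
        | mul_X p i hp =>
          rw [map_mul, map_mul]
          have hi : X i - MvPolynomial.rename Fin.castSucc (σ (X i)) ∈ J := by
            refine Fin.lastCases ?_ (fun j => ?_) i
            · simpa [σ] using hgJ
            · simp [σ]
          have h3 := J.add_mem (J.mul_mem_right (X i) hp)
            (J.mul_mem_left (MvPolynomial.rename Fin.castSucc (σ p)) hi)
          convert h3 using 1
          ring
      have hσw : aeval (R := k) v (σ p) = aeval (R := k) w p := by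
        have : (aeval (R := k) v).comp σ = aeval (R := k) w := by
          apply MvPolynomial.algHom_ext
          intro i
          refine Fin.lastCases ?_ (fun j => ?_) i
          · simp [σ, hw]
          · simp [σ, hw]
        exact congrArg (fun f => f p) this
      have h4 : σ p ∈ RingHom.ker (aeval (R := k) v) := by
        rw [RingHom.mem_ker, hσw]
        exact hp
      have h5 := J.add_mem (hσ p) (hLJ _ h4)
      simpa using h5
    · rw [hJ, Ideal.span_le]
      intro g' hg'
      simp only [List.mem_cons, List.mem_map, Set.mem_ofPred_eq] at hg'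
      rcases hg' with rfl | ⟨g0, h0, rfl⟩
      · simp only [SetLike.mem_coe, RingHom.mem_ker]
        rcases hge with h | h
        · rw [h, map_sub, hwc, hwl, sub_self]
        · rw [h, map_sub, hwc, hwl, sub_self]
      · simp only [SetLike.mem_coe, RingHom.mem_ker]
        rw [hwc]
        have : g0 ∈ RingHom.ker (aeval (R := k) v) := by
          rw [hker]
          exact Ideal.subset_span h0
        exact this

omit [CommRing A] in
theorem range_snoc {n : ℕ} (v : Fin n → A) (a : A) :
    Set.range v ⊆ Set.range (Fin.snoc (α := fun _ => A) v a) ∧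
      a ∈ Set.range (Fin.snoc (α := fun _ => A) v a) := by
  refine ⟨?_, ⟨Fin.last n, by simp⟩⟩
  rintro _ ⟨i, rfl⟩
  exact ⟨i.castSucc, by simp⟩

/-- every element can be added to the values -/
theorem Good.reach (hS : Subring.closure S = ⊤) (h1 : (1 : k) ∈ S) {n₀ : ℕ} {v₀ : Fin n₀ → A}
    (hv₀ : Good S v₀) (a : A) : ∀ (n : ℕ) (v : Fin n → A), Good S v →
      Set.range v₀ ⊆ Set.range v → ∃ (m : ℕ) (w : Fin m → A), Good S w ∧
        Set.range v ⊆ Set.range w ∧ a ∈ Set.range w := by
  have hgen : a ∈ Subring.closure (Set.range v₀ ∪ algebraMap k A '' S) := by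
    obtain ⟨p, rfl⟩ := hv₀.1 a
    induction p using MvPolynomial.induction_on with
    | C c =>
      have hc : c ∈ Subring.closure S := by rw [hS]; trivial
      have h2 : algebraMap k A c ∈ (Subring.closure S).map (algebraMap k A) := ⟨c, hc, rfl⟩
      rw [RingHom.map_closure] at h2
      rw [show aeval (R := k) v₀ (C c) = algebraMap k A c by simp]
      exact Subring.closure_mono Set.subset_union_right h2
    | add p q hp hq => rw [map_add]; exact Subring.add_mem _ hp hq
    | mul_X p i hp =>
      rw [map_mul, MvPolynomial.aeval_X]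
      exact Subring.mul_mem _ hp (Subring.subset_closure (Or.inl ⟨i, rfl⟩))
  -- adding zero
  have hzero : ∀ (n : ℕ) (v : Fin n → A), Good S v →
      ∃ (m : ℕ) (w : Fin m → A), Good S w ∧ Set.range v ⊆ Set.range w ∧ (0 : A) ∈ Set.range w := by
    intro n v hv
    have := hv.ext 0 _ (IsGate.add (S := S) (Fin.last n) (Fin.last n) (Fin.last n))
      (Or.inl (by simp))
    rw [map_zero] at this
    exact ⟨n + 1, _, this, range_snoc v 0⟩
  induction hgen using Subring.closure_induction with
  | mem x hx =>
    intro n v hv hvv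
    rcases hx with hx | ⟨s, hs, rfl⟩
    · exact ⟨n, v, hv, subset_rfl, hvv hx⟩
    · have := hv.ext (C s) _ (IsGate.const (S := S) (Fin.last n) s hs) (Or.inl (by simp))
      rw [show aeval (R := k) v (C s) = algebraMap k A s by simp] at this
      exact ⟨n + 1, _, this, range_snoc v _⟩
  | zero =>
    intro n v hv _
    exact hzero n v hv
  | one =>
    intro n v hv _
    have := hv.ext (C 1) _ (IsGate.const (S := S) (Fin.last n) 1 h1) (Or.inl (by simp))
    rw [show aeval (R := k) v (C 1) = (1 : A) by simp] at this
    exact ⟨n + 1, _, this, range_snoc v _⟩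
  | add x y _ _ hx hy =>
    intro n v hv hvv
    obtain ⟨m, w, hw, hvw, hxw⟩ := hx n v hv hvv
    obtain ⟨m', w', hw', hww', hyw'⟩ := hy m w hw (hvv.trans hvw)
    obtain ⟨i, hi⟩ := hww' hxw
    obtain ⟨j, hj⟩ := hyw'
    have := hw'.ext (X i + X j) _ (IsGate.add (S := S) i.castSucc j.castSucc (Fin.last m'))
      (Or.inr (by simp))
    rw [show aeval (R := k) w' (X i + X j) = x + y by simp [hi, hj]] at this
    exact ⟨m' + 1, _, this, (hvw.trans hww').trans (range_snoc w' _).1, (range_snoc w' _).2⟩
  | mul x y _ _ hx hy =>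
    intro n v hv hvv
    obtain ⟨m, w, hw, hvw, hxw⟩ := hx n v hv hvv
    obtain ⟨m', w', hw', hww', hyw'⟩ := hy m w hw (hvv.trans hvw)
    obtain ⟨i, hi⟩ := hww' hxw
    obtain ⟨j, hj⟩ := hyw'
    have := hw'.ext (X i * X j) _ (IsGate.mul (S := S) i.castSucc j.castSucc (Fin.last m'))
      (Or.inr (by simp))
    rw [show aeval (R := k) w' (X i * X j) = x * y by simp [hi, hj]] at this
    exact ⟨m' + 1, _, this, (hvw.trans hww').trans (range_snoc w' _).1, (range_snoc w' _).2⟩
  | neg x _ hx =>
    intro n v hv hvv
    obtain ⟨m, w, hw, hvw, hxw⟩ := hx n v hv hvv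
    obtain ⟨m', w', hw', hww', h0w'⟩ := hzero m w hw
    obtain ⟨i, hi⟩ := hww' hxw
    obtain ⟨j, hj⟩ := h0w'
    have := hw'.ext (X j - X i) _ (IsGate.add (S := S) (Fin.last m') i.castSucc j.castSucc)
      (Or.inl (by simp; ring))
    rw [show aeval (R := k) w' (X j - X i) = -x by simp [hi, hj]] at this
    exact ⟨m' + 1, _, this, (hvw.trans hww').trans (range_snoc w' _).1, (range_snoc w' _).2⟩

theorem Good.reachList (hS : Subring.closure S = ⊤) (h1 : (1 : k) ∈ S) {n₀ : ℕ} {v₀ : Fin n₀ → A}
    (hv₀ : Good S v₀) (l : List A) : ∃ (m : ℕ) (w : Fin m → A), Good S w ∧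
        Set.range v₀ ⊆ Set.range w ∧ ∀ a ∈ l, a ∈ Set.range w := by
  induction l with
  | nil => exact ⟨n₀, v₀, hv₀, subset_rfl, by simp⟩
  | cons a l ih =>
    obtain ⟨m, w, hw, hvw, hl⟩ := ih
    obtain ⟨m', w', hw', hww', ha⟩ := hv₀.reach hS h1 a m w hw hvw
    refine ⟨m', w', hw', hvw.trans hww', ?_⟩
    intro b hb
    rcases List.mem_cons.mp hb with rfl | h
    · exact ha
    · exact hww' (hl b h)

theorem good_X (n : ℕ) : Good S (X : Fin n → MvPolynomial (Fin n) k) := by
  refine ⟨fun a => ⟨a, by simp⟩, [], by simp, ?_⟩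
  rw [show {g : MvPolynomial (Fin n) k | g ∈ ([] : List _)} = ∅ by ext; simp, Ideal.span_empty]
  ext p
  simp [RingHom.mem_ker]

/-- Every finitely presented algebra is given by gates. -/
theorem exists_good (hS : Subring.closure S = ⊤) (h1 : (1 : k) ∈ S)
    (hA : Algebra.FinitePresentation k A) : ∃ (n : ℕ) (v : Fin n → A), Good S v := by
  obtain ⟨m, f, hf, ⟨s, hs⟩⟩ := hA.out
  obtain ⟨n, w, hw, -, hl⟩ := (good_X (S := S) (k := k) m).reachList hS h1 s.toList
  refine ⟨n, fun i => f (w i), ?_⟩
  have hcomp : aeval (R := k) (fun i => f (w i)) = f.comp (aeval (R := k) w) := by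
    apply MvPolynomial.algHom_ext
    intro i
    simp
  obtain ⟨hws, L, hL, hker⟩ := hw
  choose idx hidx using fun a : {a // a ∈ s.toList} => hl a.1 a.2
  refine ⟨?_, L ++ s.toList.attach.map (fun a => X (idx a)), ?_, ?_⟩
  · rw [hcomp]
    exact hf.comp hws
  · intro g hg
    rcases List.mem_append.mp hg with h | h
    · exact hL g h
    · obtain ⟨a, _, rfl⟩ := List.mem_map.mp h
      have := IsGate.add (S := S) (k := k) (idx a) (idx a) (idx a)
      simpa using this
  · rw [hcomp]
    set J : Ideal (MvPolynomial (Fin n) k) :=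
      Ideal.span {g | g ∈ L ++ s.toList.attach.map (fun a => X (idx a))} with hJ
    apply le_antisymm
    · intro p hp
      rw [RingHom.mem_ker, AlgHom.comp_apply] at hp
      have hp' : aeval (R := k) w p ∈ Ideal.span (s : Set (MvPolynomial (Fin m) k)) := by
        rw [hs]
        exact hp
      -- lift the combination
      have hlift : ∀ q ∈ Ideal.span (s : Set (MvPolynomial (Fin m) k)),
          ∃ p' ∈ J, aeval (R := k) w p' = q := by
        intro q hq
        induction hq using Submodule.span_induction with
        | mem x hx =>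
          have hx' : x ∈ s.toList := by simpa using hx
          refine ⟨X (idx ⟨x, hx'⟩), Ideal.subset_span ?_, ?_⟩
          · simp only [List.mem_append, List.mem_map]
            exact Or.inr ⟨⟨x, hx'⟩, by simp, rfl⟩
          · rw [MvPolynomial.aeval_X]
            exact hidx ⟨x, hx'⟩
        | zero => exact ⟨0, J.zero_mem, by simp⟩
        | add x y _ _ hx hy =>
          obtain ⟨p1, h1, h2⟩ := hx
          obtain ⟨p2, h3, h4⟩ := hy
          exact ⟨p1 + p2, J.add_mem h1 h3, by rw [map_add, h2, h4]⟩
        | smul c x _ hx =>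
          obtain ⟨p1, h1, h2⟩ := hx
          obtain ⟨c', hc'⟩ := hws c
          exact ⟨c' * p1, J.mul_mem_left _ h1, by rw [map_mul, hc', h2]; rfl⟩
      obtain ⟨p', hp'J, hp'w⟩ := hlift _ hp'
      have h5 : p - p' ∈ RingHom.ker (aeval (R := k) w) := by
        rw [RingHom.mem_ker, map_sub, hp'w, sub_self]
      rw [hker] at h5
      have h6 : Ideal.span {g | g ∈ L} ≤ J := Ideal.span_mono (fun g hg =>
        List.mem_append.mpr (Or.inl hg))
      have := J.add_mem (h6 h5) hp'J
      simpa using this
    · rw [hJ, Ideal.span_le]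
      intro g hg
      simp only [SetLike.mem_coe, RingHom.mem_ker, AlgHom.comp_apply]
      rcases List.mem_append.mp hg with hg | hg
      · have : g ∈ RingHom.ker (aeval (R := k) w) := by
          rw [hker]
          exact Ideal.subset_span hg
        rw [RingHom.mem_ker] at this
        rw [this, map_zero]
      · obtain ⟨a, _, rfl⟩ := List.mem_map.mp hg
        rw [MvPolynomial.aeval_X, hidx a]
        have : a.1 ∈ RingHom.ker (f : MvPolynomial (Fin m) k →+* A) := by
          have h7 : a.1 ∈ Ideal.span (s : Set (MvPolynomial (Fin m) k)) :=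
            Ideal.subset_span (by simpa using a.2)
          rw [hs] at h7
          exact h7
        exact this

end Pool.Agent.TH90.Cub
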