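import Pool.Agent.TH90.Cub.Util

/-!
# Bigraded theories on schemes over a field
-/

set_option autoImplicit false

open CategoryTheory AlgebraicGeometry

namespace Pool.Agent.TH90.Cub

/-- A scheme over `Spec F`. -/
structure FSch (F : Type) [Field F] where
  X : Scheme.{0}
  f : X ⟶ Spec (CommRingCat.of F)

/-- A bigraded family of vector spaces over `E` attached to the schemes over `F`. -/
structure Theory (F E : Type) [Field F] [Field E] where
  G : ℤ → ℤ → FSch F → Type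
  grp : ∀ i j X, AddCommGroup (G i j X)
  mod : ∀ i j X, Module E (G i j X)

attribute [instance] Theory.grp Theory.mod

variable {F E : Type} [Field F] [Field E]

/-- The `E`-linear maps `A_{i,j}(X) → B_{i',j'}(Y)`. -/
def Lin (A : Theory F E) (i j : ℤ) (X : FSch F) (B : Theory F E) (i' j' : ℤ) (Y : FSch F) : Type :=
  A.G i j X →ₗ[E] B.G i' j' Y

/-- The value of a linear map. -/
def Lin.ap {A B : Theory F E} {i j i' j' : ℤ} {X Y : FSch F} (φ : Lin A i j X B i' j' Y)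
    (x : A.G i j X) : B.G i' j' Y := (show A.G i j X →ₗ[E] B.G i' j' Y from φ) x

/-- The composition of linear maps. -/
def Lin.then {A B C : Theory F E} {i j i' j' i'' j'' : ℤ} {X Y Z : FSch F}
    (φ : Lin A i j X B i' j' Y) (ψ : Lin B i' j' Y C i'' j'' Z) : Lin A i j X C i'' j'' Z :=
  LinearMap.comp (show B.G i' j' Y →ₗ[E] C.G i'' j'' Z from ψ)
    (show A.G i j X →ₗ[E] B.G i' j' Y from φ)

/-- Exactness: the kernel of `ψ` is the image of `φ`. -/
def Ex {A B C : Theory F E} {i j i' j' i'' j'' : ℤ} {X Y Z : FSch F}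
    (φ : Lin A i j X B i' j' Y) (ψ : Lin B i' j' Y C i'' j'' Z) : Prop :=
  ∀ y, ψ.ap y = 0 ↔ ∃ x, φ.ap x = y

/-- The `E`-linear isomorphisms `A_{i,j}(X) → A_{i',j'}(Y)`. -/
def Eqv (A : Theory F E) (i j : ℤ) (X : FSch F) (i' j' : ℤ) (Y : FSch F) : Type :=
  A.G i j X ≃ₗ[E] A.G i' j' Y

/-- The value of an isomorphism. -/
def Eqv.ap {A : Theory F E} {i j i' j' : ℤ} {X Y : FSch F} (φ : Eqv A i j X i' j' Y)
    (x : A.G i j X) : A.G i' j' Y := (show A.G i j X ≃ₗ[E] A.G i' j' Y from φ) x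

/-- A long exact sequence `… → G_{i+1}(U) → G_i(Z) → G_i(X) → G_i(U) → …` (second degree `j`). -/
structure Seq (A : Theory F E) (Z X U : FSch F) (j : ℤ) where
  p : ∀ i, Lin A i j Z A i j X
  r : ∀ i, Lin A i j X A i j U
  b : ∀ i, Lin A (i + 1) j U A i j Z
  ex1 : ∀ i, Ex (r (i + 1)) (b i)
  ex2 : ∀ i, Ex (b i) (p i)
  ex3 : ∀ i, Ex (p i) (r i)

/-- An isomorphism of the groups of `X` with those of `Y`, with a shift of degrees by `(s, t)`. -/
def Theory.Iso (A : Theory F E) (X Y : FSch F) (s t : ℤ) : Type :=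
  ∀ i j i' j', i' = i + s → j' = j + t → Eqv A i j X i' j' Y

/-- The spectrum of an `F`-algebra. -/
noncomputable abbrev SpecF (A : Type) [CommRing A] [Algebra F A] : FSch F :=
  ⟨Spec (CommRingCat.of A), str F A⟩

/-- The ring `F[x_1, …, x_n][t_0, …, t_r] / (g_0 t_0 + ⋯ + g_r t_r - 1)`. -/
abbrev Cubic {n r : ℕ} (g : Fin (r + 1) → MvPolynomial (Fin n) F) : Type :=
  Hyp (MvPolynomial (Fin n) F) g

theorem exact_prod {A B C A' B' C' : Type} [AddCommGroup A] [AddCommGroup B] [AddCommGroup C]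
    [AddCommGroup A'] [AddCommGroup B'] [AddCommGroup C'] [Module E A] [Module E B] [Module E C]
    [Module E A'] [Module E B'] [Module E C'] (f : A →ₗ[E] B) (g : B →ₗ[E] C) (f' : A' →ₗ[E] B')
    (g' : B' →ₗ[E] C') (h : Function.Exact f g) (h' : Function.Exact f' g') :
    Function.Exact (f.prodMap f') (g.prodMap g') := by
  rintro ⟨x, y⟩
  constructor
  · intro hxy
    have h1 : g x = 0 := congrArg Prod.fst hxy
    have h2 : g' y = 0 := congrArg Prod.snd hxy
    obtain ⟨a, rfl⟩ := (h x).mp h1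
    obtain ⟨b, rfl⟩ := (h' y).mp h2
    exact ⟨(a, b), rfl⟩
  · rintro ⟨⟨a, b⟩, hab⟩
    have h1 : f a = x := congrArg Prod.fst hab
    have h2 : f' b = y := congrArg Prod.snd hab
    have h3 : g x = 0 := (h x).mpr ⟨a, h1⟩
    have h4 : g' y = 0 := (h' y).mpr ⟨b, h2⟩
    exact Prod.ext h3 h4

section SeqLinear

variable {A : Theory F E} {Z X U : FSch F} {j : ℤ} (S : Seq A Z X U j)

def Seq.P (i : ℤ) : A.G i j Z →ₗ[E] A.G i j X := S.p i

def Seq.R (i : ℤ) : A.G i j X →ₗ[E] A.G i j U := S.r i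

def Seq.B (i : ℤ) : A.G (i + 1) j U →ₗ[E] A.G i j Z := S.b i

theorem Seq.e1 (i : ℤ) : Function.Exact (S.R (i + 1)) (S.B i) := S.ex1 i

theorem Seq.e2 (i : ℤ) : Function.Exact (S.B i) (S.P i) := S.ex2 i

theorem Seq.e3 (i : ℤ) : Function.Exact (S.P i) (S.R i) := S.ex3 i

end SeqLinear


end Pool.Agent.TH90.Cub
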