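import Pool.Agent.TH90.Cub.StepC

set_option autoImplicit false

open CategoryTheory AlgebraicGeometry

namespace Pool.Agent.TH90.Cub

variable {sep : Prop} {k : Type} [CommRing k]
  {P : ∀ X : Scheme.{0}, (X ⟶ Spec (CommRingCat.of k)) → Prop}

/-- from a class `W` containing the polynomial rings with their gates to all schemes -/
theorem all_of_W [IsNoetherianRing k] {S : Set k} (hS : Subring.closure S = ⊤) (h1 : (1 : k) ∈ S)
    (hP : IsDevissage sep k P)
    (W : ∀ (A : Type) [CommRing A] [Algebra k A], Set A → Prop)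
    (hW1 : ∀ (A : Type) [CommRing A] [Algebra k A] (Γ : Set A), Algebra.FiniteType k A →
      W A Γ → PR P A)
    (hW2 : ∀ (A : Type) [CommRing A] [Algebra k A] (Γ : Set A) (g : A), Algebra.FiniteType k A →
      W A Γ → g ∈ Γ → W (A ⧸ Ideal.span {g}) (Ideal.Quotient.mk (Ideal.span {g}) '' Γ))
    (hW : ∀ n : ℕ, W (MvPolynomial (Fin n) k) {g | IsGate S g})
    {X : Scheme.{0}} (f : X ⟶ Spec (CommRingCat.of k)) (hf : FT sep k f) : P X f := by
  refine of_rings hP ?_ f hf
  intro A _ _ hA
  have hfp : Algebra.FinitePresentation k A := (Algebra.FinitePresentation.of_finiteType).mp hA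
  obtain ⟨n, v, hs, L, hL, hker⟩ := exists_good hS h1 hfp
  exact iterate W hP hW1 hW2 L.length (MvPolynomial (Fin n) k) {g | IsGate S g} L rfl inferInstance
    (hW n) hL A (MvPolynomial.aeval v) hs hker

/-- `P` holds for all schemes of finite type if it holds for all complements in affine spaces
of finite unions of gate hypersurfaces. -/
theorem all_of_gates [IsNoetherianRing k] {S : Set k} (hS : Subring.closure S = ⊤)
    (h1 : (1 : k) ∈ S) (hP : IsDevissage sep k P)
    (h : ∀ (n : ℕ) (h : MvPolynomial (Fin n) k), h ∈ Submonoid.closure {g | IsGate S g} →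
      PR P (Localization.Away h))
    {X : Scheme.{0}} (f : X ⟶ Spec (CommRingCat.of k)) (hf : FT sep k f) : P X f :=
  all_of_W hS h1 hP (fun A _ _ Γ => WA P A Γ) (fun A _ _ Γ hA hW => WA.one hP A Γ hA hW)
    (fun A _ _ Γ g hA hW hg => WA.step hP A Γ g hA hW hg) (fun n h' hh' => h n h' hh') f hf

/-- the cubic surface `x t_0 + (x - 1) t_1 = 1` is an affine plane -/
theorem hypTwo (hP : IsDevissage sep k P) {A : Type} [CommRing A] [Algebra k A]
    (hA : Algebra.FiniteType k A) (g : Fin 2 → A) (hg : g 0 = g 1 + 1) (h : PR P (Hyp A g)) :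
    PR P (Polynomial A) := by
  let I : Ideal (MvPolynomial (Fin 2) A) := Ideal.span
    {∑ i, MvPolynomial.C (g i) * MvPolynomial.X i - (1 : MvPolynomial (Fin 2) A)}
  let H := MvPolynomial (Fin 2) A ⧸ I
  let t : Fin 2 → H := fun i => Ideal.Quotient.mk I (MvPolynomial.X i)
  have hrel : algebraMap A H (g 0) * t 0 + algebraMap A H (g 1) * t 1 = 1 := by
    have h1 : Ideal.Quotient.mk I
        (∑ i, MvPolynomial.C (g i) * MvPolynomial.X i - (1 : MvPolynomial (Fin 2) A)) = 0 :=
      Ideal.Quotient.eq_zero_iff_mem.mpr (Ideal.subset_span rfl)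
    rw [map_sub, map_one, sub_eq_zero, Fin.sum_univ_two, map_add, map_mul, map_mul] at h1
    exact h1
  let w : Fin 2 → Polynomial A :=
    ![1 + Polynomial.C (g 1) * Polynomial.X, -1 - Polynomial.C (g 0) * Polynomial.X]
  let f : H →ₐ[A] Polynomial A := Ideal.Quotient.liftₐ I (MvPolynomial.aeval w) (by
    intro a ha
    have h2 : I ≤ RingHom.ker (MvPolynomial.aeval (R := A) w) := by
      rw [Ideal.span_le]
      rintro _ rfl
      simp only [SetLike.mem_coe, RingHom.mem_ker, map_sub, map_one, Fin.sum_univ_two, map_mul,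
        MvPolynomial.aeval_X, MvPolynomial.aeval_C, map_add]
      simp only [w, Matrix.cons_val_zero, Matrix.cons_val_one, hg, map_add, map_one,
        Polynomial.algebraMap_eq]
      ring
    exact h2 ha)
  let h' : Polynomial A →ₐ[A] H := Polynomial.aeval (-(t 0 + t 1))
  have ht : algebraMap A H (g 0) = algebraMap A H (g 1) + 1 := by rw [hg, map_add, map_one]
  have e : H ≃ₐ[A] Polynomial A := by
    refine AlgEquiv.ofAlgHom f h' ?_ ?_
    · apply Polynomial.algHom_ext
      have h3 : h' Polynomial.X = -(t 0 + t 1) := by simp [h']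
      have h4 : ∀ i, f (t i) = w i := fun i => by
        change MvPolynomial.aeval (R := A) w (MvPolynomial.X i) = w i
        simp
      change f (h' Polynomial.X) = Polynomial.X
      rw [h3, map_neg, map_add, h4, h4]
      simp only [w, Matrix.cons_val_zero, Matrix.cons_val_one, hg, map_add, map_one]
      ring
    · apply Ideal.Quotient.algHom_ext
      apply MvPolynomial.algHom_ext
      intro i
      have h4 : ∀ i, f (t i) = w i := fun i => by
        change MvPolynomial.aeval (R := A) w (MvPolynomial.X i) = w i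
        simp
      change h' (f (t i)) = t i
      rw [h4]
      rw [ht] at hrel
      fin_cases i
      · simp only [w, h', Fin.zero_eta, Matrix.cons_val_zero, map_add, map_one, map_mul,
          Polynomial.aeval_C, Polynomial.aeval_X]
        linear_combination -hrel
      · change h' (-1 - Polynomial.C (g 0) * Polynomial.X) = t 1
        simp only [h', map_sub, map_neg, map_one, map_mul,
          Polynomial.aeval_C, Polynomial.aeval_X, ht]
        linear_combination hrel
  exact PR.iso hP (e.restrictScalars k) (ft_poly hA) h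

/-- `P` holds for all schemes of finite type if it is invariant under `A ↦ A[T]` and holds for the
cubic hypersurfaces `g_0 t_0 + ⋯ + g_r t_r = 1`, `g_i` gates. -/
theorem all_of_cubics [IsNoetherianRing k] {S : Set k} (hS : Subring.closure S = ⊤)
    (h1 : (1 : k) ∈ S) (hP : IsDevissage sep k P) (hA1 : A1 P)
    (h : ∀ (n r : ℕ) (g : Fin (r + 1) → MvPolynomial (Fin n) k), (∀ i, IsGate S (g i)) →
      PR P (Hyp (MvPolynomial (Fin n) k) g))
    {X : Scheme.{0}} (f : X ⟶ Spec (CommRingCat.of k)) (hf : FT sep k f) : P X f := by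
  have hk : PR P k := by
    have h2 := h 1 1 ![MvPolynomial.X 0 + MvPolynomial.X 0 - MvPolynomial.X 0,
      MvPolynomial.X 0 - MvPolynomial.C 1] (by
        intro i
        fin_cases i
        · exact IsGate.add 0 0 0
        · exact IsGate.const 0 1 h1)
    have hfin : Algebra.FiniteType k (MvPolynomial (Fin 1) k) := inferInstance
    have h3 := hypTwo hP hfin _ (by simp) h2
    have h4 := (hA1 _ hfin).mpr h3
    have h5 : PR P (Polynomial (MvPolynomial (Fin 0) k)) :=
      PR.iso hP (((MvPolynomial.finSuccEquiv k 0)).restrictScalars k)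
        (ft_poly (ft_mv inferInstance 0)) h4
    have h6 := (hA1 _ (ft_mv inferInstance 0)).mpr h5
    exact PR.iso hP ((MvPolynomial.isEmptyAlgEquiv k (Fin 0))) inferInstance h6
  exact all_of_W hS h1 hP (fun A _ _ Γ => WB P A Γ) (fun A _ _ Γ hA hW => hW.1)
    (fun A _ _ Γ g hA hW hg => WB.step hP hA1 A Γ g hA hW hg)
    (fun n => ⟨PR.mv hP hA1 inferInstance hk n, fun r g hg => h n r g hg⟩) f hf

theorem closure_one_int : Subring.closure ({1} : Set ℤ) = ⊤ := by
  rw [eq_top_iff]
  intro n _
  exact intCast_mem _ n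

end Pool.Agent.TH90.Cub
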