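import Pool.Agent.TH90.Cub.Util
import Mathlib.Algebra.FiveLemma
import Mathlib.Data.Real.Basic

/-!
# Families of real vector spaces attached to arithmetic schemes
-/

set_option autoImplicit false

open CategoryTheory AlgebraicGeometry

namespace Pool.Agent.TH90.Cub

/-- A family of real vector spaces `A_i(X)`, `i ∈ ℤ`, attached to the schemes. -/
structure RTheory where
  G : ℤ → Scheme.{0} → Type
  grp : ∀ i X, AddCommGroup (G i X)
  mod : ∀ i X, Module ℝ (G i X)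

attribute [instance] RTheory.grp RTheory.mod

/-- The linear maps `A_i(X) → B_j(Y)`. -/
def RLin (A : RTheory) (i : ℤ) (X : Scheme.{0}) (B : RTheory) (j : ℤ) (Y : Scheme.{0}) : Type :=
  A.G i X →ₗ[ℝ] B.G j Y

/-- The value of a linear map. -/
def RLin.ap {A B : RTheory} {i j : ℤ} {X Y : Scheme.{0}} (φ : RLin A i X B j Y) (x : A.G i X) :
    B.G j Y := (show A.G i X →ₗ[ℝ] B.G j Y from φ) x

/-- Exactness: the kernel of `ψ` is the image of `φ`. -/
def REx {A B C : RTheory} {i j k : ℤ} {X Y Z : Scheme.{0}} (φ : RLin A i X B j Y)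
    (ψ : RLin B j Y C k Z) : Prop := ∀ y, ψ.ap y = 0 ↔ ∃ x, φ.ap x = y

/-- Injectivity. -/
def RLin.Inj {A B : RTheory} {i j : ℤ} {X Y : Scheme.{0}} (φ : RLin A i X B j Y) : Prop :=
  Function.Injective φ.ap

/-- Surjectivity. -/
def RLin.Surj {A B : RTheory} {i j : ℤ} {X Y : Scheme.{0}} (φ : RLin A i X B j Y) : Prop :=
  Function.Surjective φ.ap

/-- Bijectivity. -/
def RLin.Bij {A B : RTheory} {i j : ℤ} {X Y : Scheme.{0}} (φ : RLin A i X B j Y) : Prop :=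
  Function.Bijective φ.ap

/-- The linear isomorphisms `A_i(X) → B_j(Y)`. -/
def REqv (A : RTheory) (i : ℤ) (X : Scheme.{0}) (B : RTheory) (j : ℤ) (Y : Scheme.{0}) : Type :=
  A.G i X ≃ₗ[ℝ] B.G j Y

/-- The value of an isomorphism. -/
def REqv.ap {A B : RTheory} {i j : ℤ} {X Y : Scheme.{0}} (φ : REqv A i X B j Y) (x : A.G i X) :
    B.G j Y := (show A.G i X ≃ₗ[ℝ] B.G j Y from φ) x

/-- A long exact sequence `… → A_{i+1}(U) → A_i(Z) → A_i(X) → A_i(U) → …`. -/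
structure RSeq (A : RTheory) (Z X U : Scheme.{0}) where
  p : ∀ i, RLin A i Z A i X
  r : ∀ i, RLin A i X A i U
  b : ∀ i, RLin A (i + 1) U A i Z
  ex1 : ∀ i, REx (r (i + 1)) (b i)
  ex2 : ∀ i, REx (b i) (p i)
  ex3 : ∀ i, REx (p i) (r i)

section SeqLinear

variable {A : RTheory} {Z X U : Scheme.{0}} (S : RSeq A Z X U)

def RSeq.P (i : ℤ) : A.G i Z →ₗ[ℝ] A.G i X := S.p i

def RSeq.R (i : ℤ) : A.G i X →ₗ[ℝ] A.G i U := S.r i

def RSeq.B (i : ℤ) : A.G (i + 1) U →ₗ[ℝ] A.G i Z := S.b i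

theorem RSeq.e1 (i : ℤ) : Function.Exact (S.R (i + 1)) (S.B i) := S.ex1 i

theorem RSeq.e2 (i : ℤ) : Function.Exact (S.B i) (S.P i) := S.ex2 i

theorem RSeq.e3 (i : ℤ) : Function.Exact (S.P i) (S.R i) := S.ex3 i

end SeqLinear

/-- A family of linear maps `A_i(X) → B_i(X)`. -/
def RNat (A B : RTheory) : Type 1 := ∀ i X, RLin A i X B i X

/-- The map for `X` in degree `i`. -/
def RNat.at {A B : RTheory} (φ : RNat A B) (i : ℤ) (X : Scheme.{0}) : RLin A i X B i X := φ i X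

/-- Long exact sequences of `A` and `B` for `Z`, `X`, `U` compatible with `φ`. -/
structure RNatSeq {A B : RTheory} (φ : RNat A B) (Z X U : Scheme.{0}) where
  S : RSeq A Z X U
  T : RSeq B Z X U
  cp : ∀ i m, (φ.at i X).ap ((S.p i).ap m) = (T.p i).ap ((φ.at i Z).ap m)
  cr : ∀ i m, (φ.at i U).ap ((S.r i).ap m) = (T.r i).ap ((φ.at i X).ap m)
  cb : ∀ i m, (φ.at i Z).ap ((S.b i).ap m) = (T.b i).ap ((φ.at (i + 1) U).ap m)

/-- Isomorphisms of the groups of `X` with those of `Y`, compatible with `φ`. -/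
structure RNatIso {A B : RTheory} (φ : RNat A B) (X Y : Scheme.{0}) where
  a : ∀ i, REqv A i X A i Y
  b : ∀ i, REqv B i X B i Y
  comm : ∀ i m, (φ.at i Y).ap ((a i).ap m) = (b i).ap ((φ.at i X).ap m)

/-- The formal properties of `A`, `B` and `φ` for arithmetic schemes (separated, of finite type over
`ℤ`): invariance under isomorphisms, vanishing for the empty scheme, localisation sequences. -/
structure RFormalism {A B : RTheory} (φ : RNat A B) : Prop where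
  iso : ∀ {X Y : Scheme.{0}} (_ : X ≅ Y) (g : Y ⟶ Spec (CommRingCat.of ℤ)), FT True ℤ g →
    Nonempty (RNatIso φ X Y)
  empty : ∀ (i : ℤ) (X : Scheme.{0}), IsEmpty X → Subsingleton (A.G i X) ∧ Subsingleton (B.G i X)
  localization : ∀ {Z X U : Scheme.{0}} (f : X ⟶ Spec (CommRingCat.of ℤ)) (i : Z ⟶ X)
    (j : U ⟶ X), FT True ℤ f → IsClosedImmersion i → IsOpenImmersion j →
    Set.range i = (Set.range j)ᶜ → Nonempty (RNatSeq φ Z X U)

variable {A B : RTheory} {φ : RNat A B}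

/-- as a linear map -/
def RNat.L (φ : RNat A B) (i : ℤ) (X : Scheme.{0}) : A.G i X →ₗ[ℝ] B.G i X := φ i X

/-- the maps for `X` are bijective in all degrees -/
def RNat.BijAt (φ : RNat A B) (X : Scheme.{0}) : Prop := ∀ i, (φ.at i X).Bij

theorem rbijAt_iff (X : Scheme.{0}) : φ.BijAt X ↔ ∀ i, Function.Bijective (φ.L i X) :=
  Iff.rfl

theorem RNatSeq.lp {Z X U : Scheme.{0}} (L : RNatSeq φ Z X U) (i : ℤ) :
    (L.T.P i).comp (φ.L i Z) = (φ.L i X).comp (L.S.P i) :=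
  LinearMap.ext fun m => (L.cp i m).symm

theorem RNatSeq.lr {Z X U : Scheme.{0}} (L : RNatSeq φ Z X U) (i : ℤ) :
    (L.T.R i).comp (φ.L i X) = (φ.L i U).comp (L.S.R i) :=
  LinearMap.ext fun m => (L.cr i m).symm

theorem RNatSeq.lb {Z X U : Scheme.{0}} (L : RNatSeq φ Z X U) (i : ℤ) :
    (L.T.B i).comp (φ.L (i + 1) U) = (φ.L i Z).comp (L.S.B i) :=
  LinearMap.ext fun m => (L.cb i m).symm

theorem RNatSeq.closed {Z X U : Scheme.{0}} (L : RNatSeq φ Z X U) (hX : φ.BijAt X)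
    (hU : φ.BijAt U) : φ.BijAt Z := fun i =>
  LinearMap.bijective_of_surjective_of_bijective_of_bijective_of_injective
    (L.S.R (i + 1)) (L.S.B i) (L.S.P i) (L.S.R i) (L.T.R (i + 1)) (L.T.B i) (L.T.P i) (L.T.R i)
    (φ.L (i + 1) X) (φ.L (i + 1) U) (φ.L i Z) (φ.L i X) (φ.L i U)
    (L.lr (i + 1)) (L.lb i) (L.lp i) (L.lr i) (L.S.e1 i) (L.S.e2 i) (L.S.e3 i)
    (L.T.e1 i) (L.T.e2 i) (L.T.e3 i) (hX (i + 1)).2 (hU (i + 1)) (hX i) (hU i).1

theorem RNatSeq.total {Z X U : Scheme.{0}} (L : RNatSeq φ Z X U) (hZ : φ.BijAt Z)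
    (hU : φ.BijAt U) : φ.BijAt X := by
  intro i
  obtain ⟨i, rfl⟩ : ∃ n : ℤ, i = n + 1 := ⟨i - 1, by ring⟩
  exact LinearMap.bijective_of_surjective_of_bijective_of_bijective_of_injective
    (L.S.B (i + 1)) (L.S.P (i + 1)) (L.S.R (i + 1)) (L.S.B i)
    (L.T.B (i + 1)) (L.T.P (i + 1)) (L.T.R (i + 1)) (L.T.B i)
    (φ.L (i + 1 + 1) U) (φ.L (i + 1) Z) (φ.L (i + 1) X) (φ.L (i + 1) U) (φ.L i Z)
    (L.lb (i + 1)) (L.lp (i + 1)) (L.lr (i + 1)) (L.lb i)
    (L.S.e2 (i + 1)) (L.S.e3 (i + 1)) (L.S.e1 i) (L.T.e2 (i + 1)) (L.T.e3 (i + 1)) (L.T.e1 i)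
    (hU (i + 1 + 1)).2 (hZ (i + 1)) (hU (i + 1)) (hZ i).1

theorem RNatIso.bij {X Y : Scheme.{0}} (S : RNatIso φ X Y) (h : φ.BijAt X) : φ.BijAt Y := by
  intro i
  let a : A.G i X ≃ₗ[ℝ] A.G i Y := S.a i
  let b : B.G i X ≃ₗ[ℝ] B.G i Y := S.b i
  have hc : ∀ m, φ.L i Y (a m) = b (φ.L i X m) := S.comm i
  have hfun : (φ.L i Y) ∘ a = b ∘ (φ.L i X) := funext hc
  have h2 : Function.Bijective ((φ.L i Y) ∘ a) := by
    rw [hfun]
    exact b.bijective.comp (h i)
  exact (Function.Bijective.of_comp_iff _ a.bijective).mp h2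

theorem rbijAt_devissage (hφ : RFormalism φ) : IsDevissage True ℤ (fun X _ => φ.BijAt X) where
  iso := by
    intro X Y e g hg hX
    obtain ⟨S⟩ := hφ.iso e g hg
    exact S.bij hX
  empty := by
    intro X f hX i
    have h3 := (hφ.empty i X hX).1
    have h5 := (hφ.empty i X hX).2
    exact ⟨fun a b _ => Subsingleton.elim a b, fun c => ⟨0, Subsingleton.elim _ _⟩⟩
  closed := by
    intro Z X U f i j hf hi hj hr hX hU
    obtain ⟨L⟩ := hφ.localization f i j hf hi hj hr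
    exact L.closed hX hU
  total := by
    intro Z X U f i j hf hi hj hr hZ hU
    obtain ⟨L⟩ := hφ.localization f i j hf hi hj hr
    exact L.total hZ hU

/-- The complement in affine space over `ℤ` of the hypersurface `h = 0`. -/
noncomputable abbrev CompZ {N : ℕ} (h : MvPolynomial (Fin N) ℤ) : Scheme.{0} :=
  Spec (CommRingCat.of (Localization.Away h))

theorem r_gates (hφ : RFormalism φ)
    (h : ∀ (N : ℕ) (h : MvPolynomial (Fin N) ℤ), h ∈ Submonoid.closure {g | IsGate {1} g} →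
      φ.BijAt (CompZ h))
    (X : Scheme.{0}) (f : X ⟶ Spec (CommRingCat.of ℤ)) (hf : FT True ℤ f) : φ.BijAt X :=
  all_of_gates closure_one_int (Set.mem_singleton 1) (rbijAt_devissage hφ)
    (fun N h' hh' => h N h' hh') f hf

end Pool.Agent.TH90.Cub
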