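import Pool.Agent.TH90.Cub.StepC

set_option autoImplicit false

open CategoryTheory AlgebraicGeometry

namespace Pool.Agent.TH90.Cub

/-- `A[t]/(∑ g_i t_i - 1)` is smooth over `A` -/
theorem hyp_smooth (A : Type) [CommRing A] {r : ℕ} (g : Fin r → A) :
    Algebra.Smooth A (Hyp A g) := by
  let I : Ideal (MvPolynomial (Fin r) A) := Ideal.span
    {∑ i, MvPolynomial.C (g i) * MvPolynomial.X i - (1 : MvPolynomial (Fin r) A)}
  let H := MvPolynomial (Fin r) A ⧸ I
  let t : Fin r → H := fun i => Ideal.Quotient.mk I (MvPolynomial.X i)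
  have hrel : ∑ i, algebraMap A H (g i) * t i = 1 := by
    have h1 : Ideal.Quotient.mk I
        (∑ i, MvPolynomial.C (g i) * MvPolynomial.X i - (1 : MvPolynomial (Fin r) A)) = 0 :=
      Ideal.Quotient.eq_zero_iff_mem.mpr (Ideal.subset_span rfl)
    rw [map_sub, map_one, sub_eq_zero, map_sum] at h1
    rw [← h1]
    refine Finset.sum_congr rfl fun i _ => ?_
    rw [map_mul]
    rfl
  have hfp : Algebra.FinitePresentation A H :=
    Algebra.FinitePresentation.quotient ⟨{∑ i, MvPolynomial.C (g i) * MvPolynomial.X i - 1}, by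
      simp [I]⟩
  have hfs : Algebra.FormallySmooth A H := by
    refine Algebra.FormallySmooth.of_comp_surjective ?_
    intro B _ _ J hJ f
    choose s hs using fun i => Ideal.Quotient.mk_surjective (f (t i))
    let ε : B := 1 - ∑ i, algebraMap A B (g i) * s i
    have hε : ε ∈ J := by
      rw [← Ideal.Quotient.eq_zero_iff_mem, map_sub, map_one, map_sum, sub_eq_zero]
      have h2 := congrArg f hrel
      rw [map_one, map_sum] at h2
      rw [← h2]
      refine Finset.sum_congr rfl fun i _ => ?_
      rw [map_mul, map_mul, hs, f.commutes]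
      rfl
    have hε2 : ε * ε = 0 := by
      have h3 : ε * ε ∈ J ^ 2 := by rw [pow_two]; exact Ideal.mul_mem_mul hε hε
      rw [hJ] at h3
      exact h3
    let s' : Fin r → B := fun i => s i * (1 + ε)
    have hs' : ∑ i, algebraMap A B (g i) * s' i = 1 := by
      have h4 : ∑ i, algebraMap A B (g i) * s' i = (1 - ε) * (1 + ε) := by
        have h5 : ∑ i, algebraMap A B (g i) * s i = 1 - ε := by simp [ε]
        rw [← h5, Finset.sum_mul]
        refine Finset.sum_congr rfl fun i _ => ?_
        simp only [s', mul_assoc]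
      rw [h4]
      linear_combination -hε2
    let F : H →ₐ[A] B := Ideal.Quotient.liftₐ I (MvPolynomial.aeval s') (by
      intro a ha
      have h2 : I ≤ RingHom.ker (MvPolynomial.aeval (R := A) s') := by
        rw [Ideal.span_le]
        rintro _ rfl
        simp only [SetLike.mem_coe, RingHom.mem_ker, map_sub, map_one, map_sum, map_mul,
          MvPolynomial.aeval_X, MvPolynomial.aeval_C]
        rw [hs', sub_self]
      exact h2 ha)
    refine ⟨F, ?_⟩
    apply Ideal.Quotient.algHom_ext
    apply MvPolynomial.algHom_ext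
    intro i
    have h6 : F (t i) = s' i := by
      change MvPolynomial.aeval (R := A) s' (MvPolynomial.X i) = s' i
      simp
    change Ideal.Quotient.mk J (F (t i)) = f (t i)
    rw [h6]
    have h7 : Ideal.Quotient.mk J ε = 0 := Ideal.Quotient.eq_zero_iff_mem.mpr hε
    simp only [s', map_mul, map_add, map_one, h7, add_zero, mul_one, hs]
  exact ⟨hfs, hfp⟩

theorem hyp_smooth' (k A : Type) [CommRing k] [CommRing A] [Algebra k A] [Algebra.Smooth k A]
    {r : ℕ} (g : Fin r → A) : Algebra.Smooth k (Hyp A g) := by
  have := hyp_smooth A g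
  exact Algebra.Smooth.comp k A (Hyp A g)

/-- localizations at a prime, along a localization -/
theorem regular_of_away (B : Type) [CommRing B] (G : B) [IsRegularRing (Localization.Away G)]
    (p : Ideal B) [hp : p.IsPrime] (hG : G ∉ p) : IsRegularLocalRing (Localization.AtPrime p) := by
  have hdis : Disjoint (Submonoid.powers G : Set B) (p : Set B) := by
    rw [Set.disjoint_left]
    rintro _ ⟨n, rfl⟩ h
    exact hG (hp.mem_of_pow_mem n h)
  let p' : Ideal (Localization.Away G) := p.map (algebraMap B (Localization.Away G))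
  have hp' : p'.IsPrime :=
    IsLocalization.isPrime_of_isPrime_disjoint (Submonoid.powers G) _ p hp hdis
  have hc : p'.comap (algebraMap B (Localization.Away G)) = p :=
    IsLocalization.under_map_of_isPrime_disjoint (Submonoid.powers G) _ hp hdis
  have h1 : IsLocalization.AtPrime (Localization.AtPrime p')
      (p'.comap (algebraMap B (Localization.Away G))) :=
    IsLocalization.isLocalization_isLocalization_atPrime_isLocalization (Submonoid.powers G) _ p'
  have h2 : IsLocalization.AtPrime (Localization.AtPrime p') p := by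
    convert h1
    exact hc.symm
  exact IsRegularLocalRing.of_ringEquiv (IsLocalization.algEquiv p.primeCompl
    (Localization.AtPrime p') (Localization.AtPrime p)).toRingEquiv

theorem regular_away (A : Type) [CommRing A] [IsRegularRing A] (G : A) :
    IsRegularRing (Localization.Away G) := by
  have : IsNoetherianRing (Localization.Away G) :=
    IsLocalization.isNoetherianRing (Submonoid.powers G) _ inferInstance
  refine isRegularRing_iff.mpr fun p hp => ?_
  have h1 : IsLocalization.AtPrime (Localization.AtPrime p)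
      (p.comap (algebraMap A (Localization.Away G))) :=
    IsLocalization.isLocalization_isLocalization_atPrime_isLocalization (Submonoid.powers G) _ p
  exact IsRegularLocalRing.of_ringEquiv (IsLocalization.algEquiv
    (p.comap (algebraMap A (Localization.Away G))).primeCompl
    (Localization.AtPrime (p.comap (algebraMap A (Localization.Away G))))
    (Localization.AtPrime p)).toRingEquiv

/-- permuting the coefficients -/
theorem hypPerm (A : Type) [CommRing A] {r : ℕ} (g : Fin r → A) (σ : Equiv.Perm (Fin r)) :
    Nonempty (Hyp A g ≃ₐ[A] Hyp A (g ∘ σ)) := by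
  refine ⟨Ideal.quotientEquivAlg _ _ (MvPolynomial.renameEquiv A σ.symm) ?_⟩
  rw [Ideal.map_span, Set.image_singleton]
  congr 2
  have h1 : (MvPolynomial.renameEquiv A σ.symm)
      (∑ i, MvPolynomial.C (g i) * MvPolynomial.X i - 1) =
      ∑ i, MvPolynomial.C (g i) * MvPolynomial.X (σ.symm i) - 1 := by
    simp only [MvPolynomial.renameEquiv_apply, map_sub, map_sum, map_mul, map_one,
      MvPolynomial.rename_C, MvPolynomial.rename_X]
  refine Eq.trans ?_ h1.symm
  congr 1
  rw [← Equiv.sum_comp σ (fun i => (MvPolynomial.C (g i) * MvPolynomial.X (σ.symm i) :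
    MvPolynomial (Fin r) A))]
  simp

theorem regular_of_away' (B D : Type) [CommRing B] [CommRing D] (e : D ≃+* B) (G : D)
    [IsRegularRing (Localization.Away G)] (p : Ideal B) [hp : p.IsPrime] (hG : e G ∉ p) :
    IsRegularLocalRing (Localization.AtPrime p) := by
  have hp' : (p.comap e).IsPrime := Ideal.comap_isPrime _ _
  have hfin := regular_of_away D G (p.comap e) hG
  let E : Localization.AtPrime (p.comap e) ≃+* Localization.AtPrime p :=
    IsLocalization.ringEquivOfRingEquiv
      (Localization.AtPrime (p.comap e)) (Localization.AtPrime p) e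
      (e.map_primeCompl_comap_eq p)
  exact IsRegularLocalRing.of_ringEquiv (R := Localization.AtPrime (p.comap e)) E

theorem regular_relI (A' : Type) [CommRing A'] [IsRegularRing A'] (g u : A') :
    IsRegularRing (Localization.Away (algebraMap A' (Polynomial A' ⧸ relI g u) g)) := by
  have hreg1 : IsRegularRing (Localization.Away g) := regular_away A' _
  obtain ⟨e3⟩ := awayEquiv g u
  exact IsRegularRing.of_ringEquiv e3.toRingEquiv

theorem hyp_one (A : Type) [CommRing A] {r : ℕ} (g : Fin r → A) :
    (1 : Hyp A g) = ∑ i, algebraMap A (Hyp A g) (g i) * Ideal.Quotient.mk _ (MvPolynomial.X i) := by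
  have h1 : Ideal.Quotient.mk (Ideal.span
      {∑ i, MvPolynomial.C (g i) * MvPolynomial.X i - (1 : MvPolynomial (Fin r) A)})
      (∑ i, MvPolynomial.C (g i) * MvPolynomial.X i - (1 : MvPolynomial (Fin r) A)) = 0 :=
    Ideal.Quotient.eq_zero_iff_mem.mpr (Ideal.subset_span rfl)
  rw [map_sub, map_one, sub_eq_zero, map_sum] at h1
  rw [← h1]
  refine Finset.sum_congr rfl fun i _ => ?_
  rw [map_mul]
  rfl

theorem hyp_regular_aux (A : Type) [CommRing A] [IsRegularRing A] {r : ℕ} (g₀ : A)
    (γ : Fin r → A) (B : Type) [CommRing B] [Algebra A B]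
    (e1 : B ≃ₐ[A] Hyp A (Fin.cons g₀ γ : Fin (r + 1) → A)) (p : Ideal B) [hp : p.IsPrime]
    (hi : algebraMap A B g₀ ∉ p) : IsRegularLocalRing (Localization.AtPrime p) := by
  obtain ⟨e2⟩ := hypEquiv g₀ γ
  have := regular_relI (MvPolynomial (Fin r) A) (MvPolynomial.C g₀)
    (1 - ∑ i, MvPolynomial.C (γ i) * MvPolynomial.X i)
  refine regular_of_away' B _ (e1.trans e2).symm.toRingEquiv (algebraMap (MvPolynomial (Fin r) A)
    (Polynomial (MvPolynomial (Fin r) A) ⧸ relI (MvPolynomial.C g₀ : MvPolynomial (Fin r) A)
      (1 - ∑ i, MvPolynomial.C (γ i) * MvPolynomial.X i)) (MvPolynomial.C g₀)) p ?_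
  have h2 : algebraMap (MvPolynomial (Fin r) A)
      (Polynomial (MvPolynomial (Fin r) A) ⧸ relI (MvPolynomial.C g₀ : MvPolynomial (Fin r) A)
      (1 - ∑ i, MvPolynomial.C (γ i) * MvPolynomial.X i)) (MvPolynomial.C g₀) =
      algebraMap A _ g₀ :=
    (IsScalarTower.algebraMap_apply A (MvPolynomial (Fin r) A) _ g₀).symm
  rw [h2]
  have h3 : (e1.trans e2).symm.toRingEquiv (algebraMap A _ g₀) = algebraMap A B g₀ :=
    (e1.trans e2).symm.commutes g₀
  rw [h3]
  exact hi

/-- `A[t]/(∑ g_i t_i - 1)` is a regular ring if `A` is one -/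
theorem hyp_regular (A : Type) [CommRing A] [IsRegularRing A] {r : ℕ} (g : Fin r → A) :
    IsRegularRing (Hyp A g) := by
  have hn : IsNoetherianRing (Hyp A g) := inferInstance
  refine isRegularRing_iff.mpr fun p hp => ?_
  -- some `g i` is not in `p`
  have hex : ∃ i, algebraMap A (Hyp A g) (g i) ∉ p := by
    by_contra hcon
    push Not at hcon
    apply hp.ne_top
    rw [Ideal.eq_top_iff_one, hyp_one A g]
    exact Ideal.sum_mem _ fun i _ => Ideal.mul_mem_right _ _ (hcon i)
  obtain ⟨i, hi⟩ := hex
  cases r with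
  | zero => exact i.elim0
  | succ r =>
    obtain ⟨e1⟩ := hypPerm A g (Equiv.swap 0 i)
    obtain ⟨g₀, γ, hg⟩ : ∃ (g₀ : A) (γ : Fin r → A),
        g ∘ (Equiv.swap 0 i) = (Fin.cons g₀ γ : Fin (r + 1) → A) :=
      ⟨_, _, (Fin.cons_self_tail _).symm⟩
    have hg0 : g i = g₀ := by
      have := congrFun hg 0
      simpa using this
    rw [hg] at e1
    rw [hg0] at hi
    exact hyp_regular_aux A g₀ γ (Hyp A g) e1 p hi

/-- A scheme is *regular* if all its local rings are regular. -/
def RegularScheme (X : Scheme.{0}) : Prop := ∀ x : X, IsRegularLocalRing (X.presheaf.stalk x)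

theorem spec_regular (B : Type) [CommRing B] [IsRegularRing B] :
    RegularScheme (Spec (CommRingCat.of B)) := by
  intro x
  have hx : (PrimeSpectrum.asIdeal x).IsPrime := PrimeSpectrum.isPrime x
  let k : Algebra B ((Spec (CommRingCat.of B)).presheaf.stalk x) :=
    StructureSheaf.stalkAlgebra B x
  have : IsLocalization.AtPrime ((Spec (CommRingCat.of B)).presheaf.stalk x) x.asIdeal :=
    StructureSheaf.IsLocalization.to_stalk (CommRingCat.of B) x
  have := IsRegularRing.isRegularLocalRing_localization (R := B) x.asIdeal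
  exact IsRegularLocalRing.of_ringEquiv (IsLocalization.algEquiv x.asIdeal.primeCompl
    (Localization.AtPrime x.asIdeal)
    ((Spec (CommRingCat.of B)).presheaf.stalk x)).toRingEquiv

end Pool.Agent.TH90.Cub
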