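import Pool.Agent.TH90.Cub.Sch
import Pool.Agent.TH90.Cub.Gate

set_option autoImplicit false

open CategoryTheory AlgebraicGeometry

namespace Pool.Agent.TH90.Cub

variable {sep : Prop} {k : Type} [CommRing k]
  {P : ∀ X : Scheme.{0}, (X ⟶ Spec (CommRingCat.of k)) → Prop}

/-- `P` for `Spec A`. -/
def PR (P : ∀ X : Scheme.{0}, (X ⟶ Spec (CommRingCat.of k)) → Prop) (A : Type) [CommRing A]
    [Algebra k A] : Prop :=
  P (Spec (CommRingCat.of A)) (str k A)

theorem PR.iso (hP : IsDevissage sep k P) {A B : Type} [CommRing A] [Algebra k A] [CommRing B]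
    [Algebra k B] (e : A ≃ₐ[k] B) (hB : Algebra.FiniteType k B) (h : PR P A) : PR P B := by
  let E : Spec (CommRingCat.of A) ≅ Spec (CommRingCat.of B) :=
    { hom := Spec.map (CommRingCat.ofHom (e.symm : B →+* A))
      inv := Spec.map (CommRingCat.ofHom (e : A →+* B))
      hom_inv_id := by
        have h1 : CommRingCat.ofHom (e : A →+* B) ≫ CommRingCat.ofHom (e.symm : B →+* A) = 𝟙 _ := by
          ext x
          simp
        rw [← Spec.map_comp, h1, Spec.map_id]
      inv_hom_id := by
        have h1 : CommRingCat.ofHom (e.symm : B →+* A) ≫ CommRingCat.ofHom (e : A →+* B) = 𝟙 _ := by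
          ext x
          simp
        rw [← Spec.map_comp, h1, Spec.map_id] }
  refine hP.iso E (str k B) (ft_str B hB) ?_
  have : E.hom ≫ str k B = str k A := by
    change Spec.map _ ≫ Spec.map _ = Spec.map _
    rw [← Spec.map_comp, ← CommRingCat.ofHom_comp]
    congr 2
    ext x
    simp
  rw [this]
  exact h

theorem PR.quot (hP : IsDevissage sep k P) {A B C : Type} [CommRing A] [Algebra k A] [CommRing B]
    [Algebra k B] [CommRing C] [Algebra k C] [Algebra A B] [IsScalarTower k A B]
    (hA : Algebra.FiniteType k A) (g : A) [IsLocalization.Away g B] (π : A →ₐ[k] C)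
    (hπ : Function.Surjective π) (hker : RingHom.ker π = Ideal.span {g})
    (h1 : PR P A) (h2 : PR P B) : PR P C := by
  let i : Spec (CommRingCat.of C) ⟶ Spec (CommRingCat.of A) :=
    Spec.map (CommRingCat.ofHom (π : A →+* C))
  let j : Spec (CommRingCat.of B) ⟶ Spec (CommRingCat.of A) :=
    Spec.map (CommRingCat.ofHom (algebraMap A B))
  have hi : i ≫ str k A = str k C := by
    change Spec.map _ ≫ Spec.map _ = Spec.map _
    rw [← Spec.map_comp, ← CommRingCat.ofHom_comp]
    congr 2
    ext x
    simp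
  have hj : j ≫ str k A = str k B := by
    change Spec.map _ ≫ Spec.map _ = Spec.map _
    rw [← Spec.map_comp, ← CommRingCat.ofHom_comp]
    congr 2
    exact (IsScalarTower.algebraMap_eq k A B).symm
  have h3 := hP.closed (str k A) i j (ft_str A hA) (IsClosedImmersion.spec_of_surjective _ hπ)
    (IsOpenImmersion.of_isLocalization g) ?_ h1 (by rw [hj]; exact h2)
  · rw [hi] at h3
    exact h3
  · have e1 : Set.range i = PrimeSpectrum.zeroLocus (RingHom.ker (π : A →+* C) : Set A) :=
      range_comap_of_surjective _ _ hπ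
    have e2 : Set.range j = (PrimeSpectrum.basicOpen g : Set (PrimeSpectrum A)) :=
      PrimeSpectrum.localization_away_comap_range B g
    have e3 : (RingHom.ker (π : A →+* C)) = Ideal.span {g} := hker
    have e4 : PrimeSpectrum.zeroLocus (RingHom.ker (π : A →+* C) : Set A) =
        (PrimeSpectrum.basicOpen g : Set (PrimeSpectrum A))ᶜ := by
      rw [e3, PrimeSpectrum.zeroLocus_span, PrimeSpectrum.basicOpen_eq_zeroLocus_compl, compl_compl]
    exact e1.trans (e4.trans (congrArg (fun s : Set (PrimeSpectrum A) => sᶜ) e2.symm))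

section Iterate

variable (W : ∀ (A : Type) [CommRing A] [Algebra k A], Set A → Prop)

/-- iteration over a list of generators of an ideal -/
theorem iterate (hP : IsDevissage sep k P)
    (hW1 : ∀ (A : Type) [CommRing A] [Algebra k A] (Γ : Set A), Algebra.FiniteType k A →
      W A Γ → PR P A)
    (hW2 : ∀ (A : Type) [CommRing A] [Algebra k A] (Γ : Set A) (g : A), Algebra.FiniteType k A →
      W A Γ → g ∈ Γ → W (A ⧸ Ideal.span {g}) (Ideal.Quotient.mk (Ideal.span {g}) '' Γ)) :
    ∀ (n : ℕ) (A : Type) [CommRing A] [Algebra k A] (Γ : Set A) (L : List A), L.length = n →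
      Algebra.FiniteType k A → W A Γ → (∀ g ∈ L, g ∈ Γ) →
      ∀ (E : Type) [CommRing E] [Algebra k E] (π : A →ₐ[k] E), Function.Surjective π →
        RingHom.ker π = Ideal.span {g | g ∈ L} → PR P E := by
  intro n
  induction n with
  | zero =>
    intro A _ _ Γ L hL hA hW hLΓ E _ _ π hπ hker
    have hL0 : L = [] := List.length_eq_zero_iff.mp hL
    subst hL0
    have hinj : Function.Injective π := by
      rw [RingHom.injective_iff_ker_eq_bot π, hker]
      simp
    exact PR.iso hP (AlgEquiv.ofBijective π ⟨hinj, hπ⟩) (hA.of_surjective π hπ) (hW1 A Γ hA hW)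
  | succ n ih =>
    intro A _ _ Γ L hL hA hW hLΓ E _ _ π hπ hker
    obtain ⟨g, L', rfl⟩ : ∃ g L', L = g :: L' := by
      cases L with
      | nil => simp at hL
      | cons g L' => exact ⟨g, L', rfl⟩
    have hg : g ∈ Γ := hLΓ g (by simp)
    have hfin : Algebra.FiniteType k (A ⧸ Ideal.span {g}) :=
      hA.of_surjective (Ideal.Quotient.mkₐ k (Ideal.span {g})) Ideal.Quotient.mk_surjective
    have hgker : ∀ a ∈ Ideal.span {g}, π a = 0 := by
      intro a ha
      have h1 : Ideal.span {g} ≤ RingHom.ker π := by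
        rw [hker]
        exact Ideal.span_mono (by simp)
      exact h1 ha
    refine ih (A ⧸ Ideal.span {g}) (Ideal.Quotient.mk (Ideal.span {g}) '' Γ)
      (L'.map (Ideal.Quotient.mk (Ideal.span {g}))) (by simpa using hL) hfin (hW2 A Γ g hA hW hg)
      ?_ E (Ideal.Quotient.liftₐ (Ideal.span {g}) π hgker) ?_ ?_
    · intro x hx
      obtain ⟨y, hy, rfl⟩ := List.mem_map.mp hx
      exact ⟨y, hLΓ y (by simp [hy]), rfl⟩
    · intro e
      obtain ⟨a, rfl⟩ := hπ e
      exact ⟨Ideal.Quotient.mk _ a, rfl⟩
    · ext x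
      obtain ⟨a, rfl⟩ := Ideal.Quotient.mk_surjective x
      have e1 : (Ideal.Quotient.mk (Ideal.span {g}) a ∈
          RingHom.ker (Ideal.Quotient.liftₐ (Ideal.span {g}) π hgker)) ↔ a ∈ RingHom.ker π :=
        Iff.rfl
      rw [e1, hker]
      have e2 : (Ideal.span {x | x ∈ L'.map (Ideal.Quotient.mk (Ideal.span {g}))}) =
          (Ideal.span {x | x ∈ L'}).map (Ideal.Quotient.mk (Ideal.span {g})) := by
        rw [Ideal.map_span]
        congr 1
        ext y
        simp
      rw [e2, Ideal.mem_quotient_iff_mem_sup]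
      have e3 : Ideal.span {x | x ∈ g :: L'} = Ideal.span {x | x ∈ L'} ⊔ Ideal.span {g} := by
        rw [← Ideal.span_union]
        congr 1
        ext y
        simp [or_comm]
      rw [e3]

end Iterate

end Pool.Agent.TH90.Cub
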