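import Pool.Agent.TH90.Cub.Defs

set_option autoImplicit false

open CategoryTheory AlgebraicGeometry

namespace Pool.Agent.TH90.Cub

variable {sep : Prop} {k : Type} [CommRing k]
  {P : ∀ X : Scheme.{0}, (X ⟶ Spec (CommRingCat.of k)) → Prop}

theorem FT.comp_closed {Z X : Scheme.{0}} {f : X ⟶ Spec (CommRingCat.of k)} (hf : FT sep k f)
    (i : Z ⟶ X) (hi : IsClosedImmersion i) : FT sep k (i ≫ f) := by
  have := hf.lft
  have := hf.qc
  exact ⟨inferInstance, inferInstance, fun h => by
    have := hf.sp h
    infer_instance⟩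

theorem ft_str (A : Type) [CommRing A] [Algebra k A] (hA : Algebra.FiniteType k A) :
    FT sep k (str k A) := by
  refine ⟨?_, inferInstance, fun _ => inferInstance⟩
  rw [HasRingHomProperty.Spec_iff (P := @LocallyOfFiniteType)]
  exact (RingHom.finiteType_algebraMap.mpr hA)

/-- affine schemes -/
theorem of_affine (hP : IsDevissage sep k P)
    (hA : ∀ (A : Type) [CommRing A] [Algebra k A], Algebra.FiniteType k A →
      P (Spec (CommRingCat.of A)) (str k A))
    {Y : Scheme.{0}} [IsAffine Y] (f : Y ⟶ Spec (CommRingCat.of k)) (hf : FT sep k f) : P Y f := by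
  have := hf.lft
  let φ : CommRingCat.of k ⟶ Γ(Y, ⊤) := (Scheme.ΓSpecIso (CommRingCat.of k)).inv ≫ f.appTop
  have hφ : Y.isoSpec.hom ≫ Spec.map φ = f := by
    simp only [φ, Spec.map_comp]
    rw [Scheme.isoSpec_hom_naturality_assoc, Scheme.isoSpec_Spec_hom, ← Spec.map_comp,
      Iso.inv_hom_id, Spec.map_id, Category.comp_id]
  have h2 : Spec.map φ = Y.isoSpec.inv ≫ f := by
    rw [← hφ, Iso.inv_hom_id_assoc]
  let A : Type := Γ(Y, ⊤)
  let _ : CommRing A := inferInstanceAs (CommRing Γ(Y, ⊤))
  let _ : Algebra k A := φ.hom.toAlgebra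
  have hft : Algebra.FiniteType k A := by
    have h3 : LocallyOfFiniteType (Spec.map φ) := by
      rw [h2]
      infer_instance
    rw [HasRingHomProperty.Spec_iff (P := @LocallyOfFiniteType)] at h3
    exact h3
  have h1 := hA A hft
  have h4 : str k A = Y.isoSpec.inv ≫ f := h2
  rw [h4] at h1
  exact hP.iso Y.isoSpec.symm f hf h1

/-- globalisation -/
theorem of_cover (hP : IsDevissage sep k P)
    (hA : ∀ (A : Type) [CommRing A] [Algebra k A], Algebra.FiniteType k A →
      P (Spec (CommRingCat.of A)) (str k A)) :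
    ∀ (m : ℕ) {X : Scheme.{0}} (f : X ⟶ Spec (CommRingCat.of k)), FT sep k f →
      ∀ U : Fin m → X.Opens, (∀ i, IsAffineOpen (U i)) → (∀ x : X, ∃ i, x ∈ U i) → P X f := by
  intro m
  induction m with
  | zero =>
    intro X f hf U hU hx
    exact hP.empty f ⟨fun x => (hx x).elim fun i _ => i.elim0⟩
  | succ m ih =>
    intro X f hf U hU hx
    let V : X.Opens := U (Fin.last m)
    let I : X.IdealSheafData := Scheme.IdealSheafData.vanishingIdeal
      ⟨(V : Set X)ᶜ, V.isOpen.isClosed_compl⟩
    have hrange : Set.range I.subschemeι = (Set.range V.ι)ᶜ := by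
      rw [Scheme.IdealSheafData.range_subschemeι, Scheme.Opens.range_ι,
        Scheme.IdealSheafData.coe_support_vanishingIdeal]
      rfl
    have := hf.lft
    have := hf.qc
    refine hP.total f I.subschemeι V.ι hf inferInstance inferInstance hrange ?_ ?_
    · refine ih (I.subschemeι ≫ f) (hf.comp_closed _ inferInstance)
        (fun i => I.subschemeι ⁻¹ᵁ (U i.castSucc)) (fun i => (hU _).preimage _) ?_
      intro x
      obtain ⟨i, hi⟩ := hx (I.subschemeι x)
      have hne : i ≠ Fin.last m := by
        rintro rfl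
        have h1 : I.subschemeι x ∈ Set.range I.subschemeι := ⟨x, rfl⟩
        rw [hrange, Scheme.Opens.range_ι] at h1
        exact h1 hi
      obtain ⟨j, rfl⟩ := Fin.exists_castSucc_eq.mpr hne
      exact ⟨j, hi⟩
    · have hV : IsAffine (V : Scheme) := hU (Fin.last m)
      refine of_affine hP hA (V.ι ≫ f) ⟨inferInstance, ?_, fun h => ?_⟩
      · infer_instance
      · have := hf.sp h
        infer_instance

theorem of_rings (hP : IsDevissage sep k P)
    (hA : ∀ (A : Type) [CommRing A] [Algebra k A], Algebra.FiniteType k A →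
      P (Spec (CommRingCat.of A)) (str k A)) {X : Scheme.{0}} (f : X ⟶ Spec (CommRingCat.of k))
    (hf : FT sep k f) : P X f := by
  have := hf.qc
  have hc : CompactSpace X := QuasiCompact.compactSpace_of_compactSpace f
  choose W hW hxW _ using fun x : X =>
    exists_isAffineOpen_mem_and_subset (U := (⊤ : X.Opens)) (x := x) (TopologicalSpace.Opens.mem_top x)
  obtain ⟨t, ht⟩ := CompactSpace.elim_nhds_subcover (fun x : X => (W x : Set X))
    (fun x => (W x).isOpen.mem_nhds (hxW x))
  refine of_cover hP hA t.card f hf (fun i => W ((t.equivFin.symm i) : X)) (fun i => hW _) ?_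
  intro x
  have hx : x ∈ ⋃ y ∈ t, (W y : Set X) := by
    rw [ht]
    trivial
  simp only [Set.mem_iUnion] at hx
  obtain ⟨y, hy, hxy⟩ := hx
  exact ⟨t.equivFin ⟨y, hy⟩, by simpa using hxy⟩

end Pool.Agent.TH90.Cub
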