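import Pool.Agent.TH90.Cub.Ring

set_option autoImplicit false

open CategoryTheory AlgebraicGeometry

namespace Pool.Agent.TH90.Cub

variable {sep : Prop} {k : Type} [CommRing k]
  {P : ∀ X : Scheme.{0}, (X ⟶ Spec (CommRingCat.of k)) → Prop}

/-- all localisations of `A` at products of elements of `Γ` have the property -/
def WA (P : ∀ X : Scheme.{0}, (X ⟶ Spec (CommRingCat.of k)) → Prop) (A : Type) [CommRing A]
    [Algebra k A] (Γ : Set A) : Prop :=
  ∀ h ∈ Submonoid.closure Γ, PR P (Localization.Away h)

theorem ft_away {A : Type} [CommRing A] [Algebra k A] (hA : Algebra.FiniteType k A) (h : A) :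
    Algebra.FiniteType k (Localization.Away h) := by
  have : Algebra.FiniteType A (Localization.Away h) := inferInstance
  exact hA.trans this

theorem WA.one (hP : IsDevissage sep k P) (A : Type) [CommRing A] [Algebra k A] (Γ : Set A)
    (hA : Algebra.FiniteType k A) (h : WA P A Γ) : PR P A := by
  have h1 := h 1 (one_mem _)
  exact PR.iso hP ((IsLocalization.atOne A (Localization.Away (1 : A))).restrictScalars k).symm hA h1

theorem WA.step (hP : IsDevissage sep k P) (A : Type) [CommRing A] [Algebra k A] (Γ : Set A) (g : A)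
    (hA : Algebra.FiniteType k A) (hW : WA P A Γ) (hg : g ∈ Γ) :
    WA P (A ⧸ Ideal.span {g}) (Ideal.Quotient.mk (Ideal.span {g}) '' Γ) := by
  intro h' hh'
  have hmap : h' ∈ (Submonoid.closure Γ).map (Ideal.Quotient.mk (Ideal.span {g})) := by
    rw [MonoidHom.map_mclosure]
    exact hh'
  obtain ⟨h, hh, rfl⟩ := hmap
  let B := Localization.Away h
  have hB : Algebra.FiniteType k B := ft_away hA h
  let D := Localization.Away (algebraMap A B g)
  have hD : IsLocalization.Away (h * g) D := inferInstance
  have e : Localization.Away (h * g) ≃ₐ[A] D :=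
    IsLocalization.algEquiv (Submonoid.powers (h * g)) _ _
  have hPD : PR P D := PR.iso hP (e.restrictScalars k) (ft_away hB _)
    (hW (h * g) (mul_mem hh (Submonoid.subset_closure hg)))
  let mk : A →+* (A ⧸ Ideal.span {g}) := Ideal.Quotient.mk (Ideal.span {g})
  have hpow : Submonoid.map mk (Submonoid.powers h) = Submonoid.powers (mk h) :=
    Submonoid.map_powers mk h
  let ρ : B →+* Localization.Away (mk h) := IsLocalization.map (Localization.Away (mk h)) mk
    (hpow ▸ (Submonoid.powers h).le_comap_map)
  let π : B →ₐ[k] Localization.Away (mk h) :=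
    { ρ with
      commutes' := fun r => by
        change ρ (algebraMap k B r) = _
        rw [IsScalarTower.algebraMap_apply k A B, IsLocalization.map_eq]
        change algebraMap _ _ (algebraMap k (A ⧸ Ideal.span {g}) r) = _
        rw [← IsScalarTower.algebraMap_apply] }
  refine PR.quot (B := D) hP hB (algebraMap A B g) π ?_ ?_ (hW h hh) hPD
  · intro x
    obtain ⟨y, s, rfl⟩ := IsLocalization.exists_mk'_eq (Submonoid.powers (mk h)) x
    obtain ⟨y', rfl⟩ := Ideal.Quotient.mk_surjective y
    obtain ⟨_, n, rfl⟩ := s
    refine ⟨IsLocalization.mk' B y' (⟨h ^ n, n, rfl⟩ : Submonoid.powers h), ?_⟩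
    change ρ _ = _
    rw [IsLocalization.map_mk']
    congr 1
  · have h1 := IsLocalization.ker_map (S := B) (Localization.Away (mk h)) mk hpow
    have h2 : RingHom.ker π = (RingHom.ker mk).map (algebraMap A B) := h1
    rw [h2, Ideal.mk_ker, Ideal.map_span, Set.image_singleton]

end Pool.Agent.TH90.Cub
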