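import Pool.Agent.TH90.Cub.StepA

set_option autoImplicit false

open CategoryTheory AlgebraicGeometry

namespace Pool.Agent.TH90.Cub

variable {sep : Prop} {k : Type} [CommRing k]
  {P : ∀ X : Scheme.{0}, (X ⟶ Spec (CommRingCat.of k)) → Prop}

/-- invariance under `A ↦ A[T]` -/
def A1 (P : ∀ X : Scheme.{0}, (X ⟶ Spec (CommRingCat.of k)) → Prop) : Prop :=
  ∀ (A : Type) [CommRing A] [Algebra k A], Algebra.FiniteType k A →
    (PR P A ↔ PR P (Polynomial A))

/-- `A` and all `Hyp A g`, `g` a nonempty list in `Γ`, have the property -/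
def WB (P : ∀ X : Scheme.{0}, (X ⟶ Spec (CommRingCat.of k)) → Prop) (A : Type) [CommRing A]
    [Algebra k A] (Γ : Set A) : Prop :=
  PR P A ∧ ∀ (r : ℕ) (g : Fin (r + 1) → A), (∀ i, g i ∈ Γ) → PR P (Hyp A g)

section Poly

variable {A : Type} [CommRing A] [Algebra k A]

theorem ft_mv (hA : Algebra.FiniteType k A) (r : ℕ) :
    Algebra.FiniteType k (MvPolynomial (Fin r) A) :=
  hA.trans inferInstance

theorem ft_poly (hA : Algebra.FiniteType k A) : Algebra.FiniteType k (Polynomial A) :=
  hA.trans inferInstance

theorem PR.mv (hP : IsDevissage sep k P) (hA1 : A1 P) (hA : Algebra.FiniteType k A)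
    (h : PR P A) : ∀ r : ℕ, PR P (MvPolynomial (Fin r) A) := by
  intro r
  induction r with
  | zero =>
    exact PR.iso hP ((MvPolynomial.isEmptyAlgEquiv A (Fin 0)).restrictScalars k).symm (ft_mv hA 0) h
  | succ r ih =>
    have h1 := (hA1 _ (ft_mv hA r)).mp ih
    exact PR.iso hP ((MvPolynomial.finSuccEquiv A r).restrictScalars k).symm (ft_mv hA (r + 1)) h1

/-- localisation of a polynomial ring -/
theorem PR.mvAway (hP : IsDevissage sep k P) (hA1 : A1 P) (hA : Algebra.FiniteType k A) (g : A)
    (h : PR P (Localization.Away g)) (r : ℕ) :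
    PR P (Localization.Away (MvPolynomial.C g : MvPolynomial (Fin r) A)) := by
  have h1 := PR.mv hP hA1 (ft_away hA g) h r
  let _ : Algebra (MvPolynomial (Fin r) A) (MvPolynomial (Fin r) (Localization.Away g)) :=
    MvPolynomial.algebraMvPolynomial
  have h2 : IsLocalization ((Submonoid.powers g).map (MvPolynomial.C : A →+* MvPolynomial (Fin r) A))
      (MvPolynomial (Fin r) (Localization.Away g)) := MvPolynomial.isLocalization _ _
  have h3 : IsLocalization.Away (MvPolynomial.C g : MvPolynomial (Fin r) A)
      (MvPolynomial (Fin r) (Localization.Away g)) := by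
    rw [Submonoid.map_powers] at h2
    exact h2
  have : IsScalarTower k (MvPolynomial (Fin r) A) (MvPolynomial (Fin r) (Localization.Away g)) := by
    refine IsScalarTower.of_algebraMap_eq fun x => ?_
    rw [MvPolynomial.algebraMap_apply, MvPolynomial.algebraMap_apply, MvPolynomial.algebraMap_def,
      MvPolynomial.map_C, ← IsScalarTower.algebraMap_apply]
  have e : MvPolynomial (Fin r) (Localization.Away g) ≃ₐ[MvPolynomial (Fin r) A]
      Localization.Away (MvPolynomial.C g : MvPolynomial (Fin r) A) :=
    IsLocalization.algEquiv (Submonoid.powers (MvPolynomial.C g : MvPolynomial (Fin r) A)) _ _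
  exact PR.iso hP (e.restrictScalars k) (ft_away (ft_mv hA r) _) h1

/-- `A_g = A[T]/(gT - 1)` -/
theorem PR.awayOfHyp (hP : IsDevissage sep k P) (hA : Algebra.FiniteType k A) (g : Fin 1 → A)
    (h : PR P (Hyp A g)) : PR P (Localization.Away (g 0)) := by
  let I : Ideal (MvPolynomial (Fin 1) A) := Ideal.span
    {∑ i, MvPolynomial.C (g i) * MvPolynomial.X i - (1 : MvPolynomial (Fin 1) A)}
  let H := MvPolynomial (Fin 1) A ⧸ I
  let x : H := Ideal.Quotient.mk I (MvPolynomial.X 0)
  have hgx : algebraMap A H (g 0) * x = 1 := by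
    have h1 : Ideal.Quotient.mk I
        (∑ i, MvPolynomial.C (g i) * MvPolynomial.X i - (1 : MvPolynomial (Fin 1) A)) = 0 :=
      Ideal.Quotient.eq_zero_iff_mem.mpr (Ideal.subset_span rfl)
    rw [map_sub, map_one, sub_eq_zero, Fin.sum_univ_one, map_mul] at h1
    exact h1
  have hu : IsUnit (algebraMap A H (g 0)) := IsUnit.of_mul_eq_one _ hgx
  let B := Localization.Away (g 0)
  let f : B →ₐ[A] H := IsLocalization.liftAlgHom (M := Submonoid.powers (g 0))
    (f := Algebra.ofId A H) (by
      rintro ⟨_, n, rfl⟩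
      change IsUnit (algebraMap A H (g 0 ^ n))
      rw [map_pow]
      exact hu.pow n)
  let y : B := IsLocalization.Away.invSelf (g 0)
  have hgy : algebraMap A B (g 0) * y = 1 := IsLocalization.Away.mul_invSelf (g 0)
  let h' : H →ₐ[A] B := Ideal.Quotient.liftₐ I (MvPolynomial.aeval (fun _ => y)) (by
    intro a ha
    have h2 : I ≤ RingHom.ker (MvPolynomial.aeval (R := A) (fun _ : Fin 1 => y)) := by
      rw [Ideal.span_le]
      rintro _ rfl
      simp only [SetLike.mem_coe, RingHom.mem_ker, map_sub, map_one, Fin.sum_univ_one, map_mul,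
        MvPolynomial.aeval_X, MvPolynomial.aeval_C]
      rw [hgy, sub_self]
    exact h2 ha)
  have e : H ≃ₐ[A] B := by
    refine AlgEquiv.ofAlgHom h' f ?_ ?_
    · have := IsLocalization.algHom_subsingleton (R := A) (Submonoid.powers (g 0)) (S := B) (P := B)
      exact Subsingleton.elim _ _
    · apply Ideal.Quotient.algHom_ext
      apply MvPolynomial.algHom_ext
      intro i
      have hi : i = 0 := Subsingleton.elim _ _
      subst hi
      change f (h' x) = x
      have h3 : h' x = y := by
        change MvPolynomial.aeval (R := A) (fun _ : Fin 1 => y) (MvPolynomial.X 0) = y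
        simp
      rw [h3]
      have h4 : algebraMap A H (g 0) * f y = 1 := by
        rw [← f.commutes, ← map_mul, hgy, map_one]
      exact hu.mul_left_cancel (h4.trans hgx.symm)
  exact PR.iso hP (e.restrictScalars k) (ft_away hA _) h

end Poly

end Pool.Agent.TH90.Cub
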