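import Pool.Agent.TH90.Cub.StepB

set_option autoImplicit false

open CategoryTheory AlgebraicGeometry

namespace Pool.Agent.TH90.Cub

variable {sep : Prop} {k : Type} [CommRing k]
  {P : ∀ X : Scheme.{0}, (X ⟶ Spec (CommRingCat.of k)) → Prop}

section Aff

variable {A : Type} [CommRing A] [Algebra k A]

/-- the relation ideal of `D = A[T]/(gT - u)` -/
noncomputable abbrev relI (g u : A) : Ideal (Polynomial A) :=
  Ideal.span {Polynomial.C g * Polynomial.X - Polynomial.C u}

/-- `D_g = A_g` for `D = A[T]/(gT - u)` -/
theorem awayEquiv (g u : A) : Nonempty (Localization.Away g ≃ₐ[A]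
    Localization.Away (algebraMap A (Polynomial A ⧸ relI g u) g)) := by
  let D := Polynomial A ⧸ relI g u
  let x : D := Ideal.Quotient.mk (relI g u) Polynomial.X
  have hgx : algebraMap A D g * x = algebraMap A D u := by
    have h1 : Ideal.Quotient.mk (relI g u) (Polynomial.C g * Polynomial.X - Polynomial.C u) = 0 :=
      Ideal.Quotient.eq_zero_iff_mem.mpr (Ideal.subset_span rfl)
    rw [map_sub, sub_eq_zero, map_mul] at h1
    exact h1
  let gD : D := algebraMap A D g
  let B := Localization.Away gD
  let Ag := Localization.Away g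
  have hgB : IsUnit (algebraMap A B g) := by
    have h1 : IsUnit (algebraMap D B gD) := IsLocalization.Away.algebraMap_isUnit gD
    rw [show algebraMap A B g = algebraMap D B gD from IsScalarTower.algebraMap_apply A D B g]
    exact h1
  let f : Ag →ₐ[A] B := IsLocalization.liftAlgHom (M := Submonoid.powers g)
    (f := Algebra.ofId A B) (by
      rintro ⟨_, n, rfl⟩
      change IsUnit (algebraMap A B (g ^ n))
      rw [map_pow]
      exact hgB.pow n)
  let y : Ag := IsLocalization.Away.invSelf g
  have hgy : algebraMap A Ag g * y = 1 := IsLocalization.Away.mul_invSelf g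
  let q : D →ₐ[A] Ag := Ideal.Quotient.liftₐ (relI g u)
    (Polynomial.aeval (algebraMap A Ag u * y)) (by
      intro a ha
      have h2 : relI g u ≤ RingHom.ker (Polynomial.aeval (R := A) (algebraMap A Ag u * y)) := by
        rw [relI, Ideal.span_le]
        rintro _ rfl
        simp only [SetLike.mem_coe, RingHom.mem_ker, map_sub, map_mul, Polynomial.aeval_C,
          Polynomial.aeval_X]
        linear_combination (algebraMap A Ag u) * hgy
      exact h2 ha)
  let h' : B →ₐ[A] Ag := IsLocalization.liftAlgHom (M := Submonoid.powers gD) (f := q) (by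
      rintro ⟨_, n, rfl⟩
      change IsUnit (q (gD ^ n))
      rw [map_pow]
      have h3 : q gD = algebraMap A Ag g := q.commutes g
      rw [h3]
      exact (IsUnit.of_mul_eq_one _ hgy).pow n)
  refine ⟨AlgEquiv.ofAlgHom f h' ?_ ?_⟩
  · -- f ∘ h' = id on B
    have h4 : ∀ d : D, f (h' (algebraMap D B d)) = algebraMap D B d := by
      intro d
      have h5 : h' (algebraMap D B d) = q d := IsLocalization.lift_eq _ _
      rw [h5]
      obtain ⟨p, rfl⟩ := Ideal.Quotient.mk_surjective d
      have h6 : (f.comp q).comp (Ideal.Quotient.mkₐ A (relI g u)) =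
          (IsScalarTower.toAlgHom A D B).comp (Ideal.Quotient.mkₐ A (relI g u)) := by
        apply Polynomial.algHom_ext
        change f (q x) = algebraMap D B x
        have h7 : q x = algebraMap A Ag u * y := by
          change Polynomial.aeval (R := A) (algebraMap A Ag u * y) Polynomial.X = _
          simp
        rw [h7, map_mul, f.commutes]
        have h8 : algebraMap A B g * f y = 1 := by
          rw [← f.commutes, ← map_mul, hgy, map_one]
        have h9 : algebraMap A B g * algebraMap D B x = algebraMap A B u := by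
          rw [IsScalarTower.algebraMap_apply A D B g, ← map_mul, hgx,
            ← IsScalarTower.algebraMap_apply]
        apply hgB.mul_left_cancel
        rw [h9]
        linear_combination (algebraMap A B u) * h8
      exact DFunLike.congr_fun h6 p
    have h10 : ((f.comp h' : B →ₐ[A] B) : B →+* B) = RingHom.id B := by
      apply IsLocalization.ringHom_ext (Submonoid.powers gD)
      exact RingHom.ext fun d => h4 d
    exact AlgHom.ext fun b => DFunLike.congr_fun h10 b
  · have := IsLocalization.algHom_subsingleton (R := A) (Submonoid.powers g) (S := Ag) (P := Ag)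
    exact Subsingleton.elim _ _

/-- the main step -/
theorem PR.main (hP : IsDevissage sep k P) (hA : Algebra.FiniteType k A) (g u : A)
    (E : Type) [CommRing E] [Algebra k E] (ρ : A →ₐ[k] E) (hρ : Function.Surjective ρ)
    (hker : RingHom.ker ρ = Ideal.span {g, u})
    (hD : PR P (Polynomial A ⧸ relI g u)) (hAg : PR P (Localization.Away g)) :
    PR P (Polynomial E) := by
  let D := Polynomial A ⧸ relI g u
  have hft : Algebra.FiniteType k D := (ft_poly hA).of_surjective
    (Ideal.Quotient.mkₐ k (relI g u)) Ideal.Quotient.mk_surjective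
  obtain ⟨e⟩ := awayEquiv g u
  have hB : PR P (Localization.Away (algebraMap A D g)) :=
    PR.iso hP (e.restrictScalars k) (ft_away hft _) hAg
  let Φ : Polynomial A →ₐ[k] Polynomial E := Polynomial.mapAlgHom ρ
  have hΦker : RingHom.ker Φ = Ideal.span {Polynomial.C g, Polynomial.C u} := by
    have h1 : RingHom.ker (Polynomial.mapRingHom (ρ : A →+* E)) =
        (RingHom.ker (ρ : A →+* E)).map Polynomial.C := Polynomial.ker_mapRingHom _
    have h2 : RingHom.ker (ρ : A →+* E) = Ideal.span {g, u} := hker
    rw [h2, Ideal.map_span, Set.image_pair] at h1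
    exact h1
  have hΦg : Φ (Polynomial.C g) = 0 := by
    have : Polynomial.C g ∈ RingHom.ker Φ := by
      rw [hΦker]; exact Ideal.subset_span (by simp)
    exact this
  have hΦu : Φ (Polynomial.C u) = 0 := by
    have : Polynomial.C u ∈ RingHom.ker Φ := by
      rw [hΦker]; exact Ideal.subset_span (by simp)
    exact this
  have hrel : ∀ a ∈ relI g u, Φ a = 0 := by
    intro a ha
    have h2 : relI g u ≤ RingHom.ker Φ := by
      rw [relI, Ideal.span_le]
      rintro _ rfl
      simp only [SetLike.mem_coe, RingHom.mem_ker, map_sub, map_mul, hΦg, hΦu, zero_mul, sub_zero]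
    exact h2 ha
  let π : D →ₐ[k] Polynomial E := Ideal.Quotient.liftₐ (relI g u) Φ hrel
  refine PR.quot (B := Localization.Away (algebraMap A D g)) hP hft (algebraMap A D g) π ?_ ?_ hD hB
  · have hs : Function.Surjective Φ := Polynomial.map_surjective _ hρ
    intro b
    obtain ⟨a, rfl⟩ := hs b
    exact ⟨Ideal.Quotient.mk _ a, rfl⟩
  · ext d
    obtain ⟨p, rfl⟩ := Ideal.Quotient.mk_surjective d
    have e1 : (Ideal.Quotient.mk (relI g u) p ∈ RingHom.ker π) ↔ p ∈ RingHom.ker Φ := Iff.rfl
    have e2 : (Ideal.span {algebraMap A D g} : Ideal D) =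
        (Ideal.span {Polynomial.C g}).map (Ideal.Quotient.mk (relI g u)) := by
      rw [Ideal.map_span, Set.image_singleton]
      rfl
    rw [e1, e2, Ideal.mem_quotient_iff_mem_sup, hΦker, relI, ← Ideal.span_union]
    have e3 : (Ideal.span {Polynomial.C g, Polynomial.C u} : Ideal (Polynomial A)) =
        Ideal.span ({Polynomial.C g} ∪ {Polynomial.C g * Polynomial.X - Polynomial.C u}) := by
      apply le_antisymm
      · rw [Ideal.span_le]
        rintro z (rfl | rfl)
        · exact Ideal.subset_span (by simp)
        · have h1 : (Polynomial.C g : Polynomial A) ∈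
              Ideal.span ({Polynomial.C g} ∪ {Polynomial.C g * Polynomial.X - Polynomial.C u}) :=
            Ideal.subset_span (by simp)
          have h2 : (Polynomial.C g * Polynomial.X - Polynomial.C u : Polynomial A) ∈
              Ideal.span ({Polynomial.C g} ∪ {Polynomial.C g * Polynomial.X - Polynomial.C u}) :=
            Ideal.subset_span (by simp)
          have h3 := Ideal.sub_mem _ (Ideal.mul_mem_right Polynomial.X _ h1) h2
          simpa using h3
      · rw [Ideal.span_le]
        rintro z (rfl | rfl)
        · exact Ideal.subset_span (by simp)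
        · have h1 : (Polynomial.C g : Polynomial A) ∈
              (Ideal.span {Polynomial.C g, Polynomial.C u} : Ideal (Polynomial A)) :=
            Ideal.subset_span (by simp)
          have h2 : (Polynomial.C u : Polynomial A) ∈
              (Ideal.span {Polynomial.C g, Polynomial.C u} : Ideal (Polynomial A)) :=
            Ideal.subset_span (by simp)
          exact Ideal.sub_mem _ (Ideal.mul_mem_right Polynomial.X _ h1) h2
    rw [e3]

end Aff

/-- `A[t_0, …, t_{r+1}]/(g_0 t_0 + ⋯ - 1) = A[t_1, …, t_{r+1}][T]/(g_0 T - u)` -/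
theorem hypEquiv {A : Type} [CommRing A] {r : ℕ} (g : A) (γ : Fin r → A) :
    Nonempty (Hyp A (Fin.cons g γ : Fin (r + 1) → A) ≃ₐ[A]
      (Polynomial (MvPolynomial (Fin r) A) ⧸ relI (MvPolynomial.C g : MvPolynomial (Fin r) A)
        (1 - ∑ i, MvPolynomial.C (γ i) * MvPolynomial.X i))) := by
  refine ⟨Ideal.quotientEquivAlg _ _ (MvPolynomial.finSuccEquiv A r) ?_⟩
  rw [Ideal.map_span, Set.image_singleton, relI]
  congr 2
  have hC : ∀ a : A, (MvPolynomial.finSuccEquiv A r) (MvPolynomial.C a) =
      Polynomial.C (MvPolynomial.C a) := fun a => (MvPolynomial.finSuccEquiv A r).commutes a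
  have h1 : (MvPolynomial.finSuccEquiv A r)
      (∑ i, MvPolynomial.C ((Fin.cons g γ : Fin (r + 1) → A) i) * MvPolynomial.X i - 1) =
      Polynomial.C (MvPolynomial.C g) * Polynomial.X -
        Polynomial.C (1 - ∑ i, MvPolynomial.C (γ i) * MvPolynomial.X i) := by
    rw [Fin.sum_univ_succ]
    simp only [Fin.cons_zero, Fin.cons_succ, map_mul, hC, MvPolynomial.finSuccEquiv_X_zero,
      MvPolynomial.finSuccEquiv_X_succ, map_sub, map_one, map_sum, map_add]
    ring
  exact h1.symm

theorem WB.step (hP : IsDevissage sep k P) (hA1 : A1 P) (A : Type) [CommRing A] [Algebra k A]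
    (Γ : Set A) (g : A) (hA : Algebra.FiniteType k A) (hW : WB P A Γ) (hg : g ∈ Γ) :
    WB P (A ⧸ Ideal.span {g}) (Ideal.Quotient.mk (Ideal.span {g}) '' Γ) := by
  have hAg : PR P (Localization.Away g) :=
    PR.awayOfHyp hP hA (fun _ => g) (hW.2 0 (fun _ => g) (fun _ => hg))
  constructor
  · exact PR.quot (B := Localization.Away g) hP hA g (Ideal.Quotient.mkₐ k (Ideal.span {g}))
      Ideal.Quotient.mk_surjective (Ideal.Quotient.mkₐ_ker k _) hW.1 hAg
  · intro r g' hg'
    choose γ hγ hγg using hg'
    obtain rfl : (fun i => Ideal.Quotient.mk (Ideal.span {g}) (γ i)) = g' := funext hγg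
    set C := A ⧸ Ideal.span {g}
    let R1 := MvPolynomial (Fin (r + 1)) A
    let u : R1 := 1 - ∑ i, MvPolynomial.C (γ i) * MvPolynomial.X i
    have hD : PR P (Polynomial R1 ⧸ relI (MvPolynomial.C g : R1) u) := by
      obtain ⟨e⟩ := hypEquiv g γ
      refine PR.iso hP (e.restrictScalars k) ?_ (hW.2 (r + 1) (Fin.cons g γ) ?_)
      · exact (ft_poly (ft_mv hA _)).of_surjective
          (Ideal.Quotient.mkₐ k (relI (MvPolynomial.C g : R1) u)) Ideal.Quotient.mk_surjective
      · intro i
        refine Fin.cases ?_ (fun j => ?_) i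
        · simpa using hg
        · simpa using hγ j
    let E := Hyp C (fun i => Ideal.Quotient.mk (Ideal.span {g}) (γ i))
    let I : Ideal (MvPolynomial (Fin (r + 1)) C) := Ideal.span
      {∑ i, MvPolynomial.C (Ideal.Quotient.mk (Ideal.span {g}) (γ i)) * MvPolynomial.X i -
        (1 : MvPolynomial (Fin (r + 1)) C)}
    let μ : R1 →ₐ[k] MvPolynomial (Fin (r + 1)) C :=
      MvPolynomial.mapAlgHom (Ideal.Quotient.mkₐ k (Ideal.span {g}))
    have hμs : Function.Surjective μ :=
      MvPolynomial.map_surjective _ Ideal.Quotient.mk_surjective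
    have hμker : RingHom.ker μ = Ideal.span {MvPolynomial.C g} := by
      have h1 := MvPolynomial.ker_mapAlgHom (σ := Fin (r + 1))
        (Ideal.Quotient.mkₐ k (Ideal.span {g}))
      have h2 : RingHom.ker (Ideal.Quotient.mkₐ k (Ideal.span {g})) = Ideal.span {g} :=
        Ideal.Quotient.mkₐ_ker k _
      rw [h2, Ideal.map_span, Set.image_singleton] at h1
      exact h1
    have hμu : μ u = -(∑ i, MvPolynomial.C (Ideal.Quotient.mk (Ideal.span {g}) (γ i)) *
        MvPolynomial.X i - (1 : MvPolynomial (Fin (r + 1)) C)) := by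
      have hμC : ∀ a : A, μ (MvPolynomial.C a) =
          MvPolynomial.C (Ideal.Quotient.mk (Ideal.span {g}) a) := fun a =>
        MvPolynomial.map_C _ a
      have hμX : ∀ i, μ (MvPolynomial.X i) = MvPolynomial.X i := fun i => MvPolynomial.map_X _ i
      simp only [u, map_sub, map_one, map_sum, map_mul, hμC, hμX, neg_sub]
    let ρ : R1 →ₐ[k] E := (Ideal.Quotient.mkₐ k I).comp μ
    have hρs : Function.Surjective ρ := Ideal.Quotient.mk_surjective.comp hμs
    have hρker : RingHom.ker ρ = Ideal.span {MvPolynomial.C g, u} := by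
      ext x
      have h1 : x ∈ RingHom.ker ρ ↔ μ x ∈ I := by
        rw [RingHom.mem_ker]
        exact Ideal.Quotient.eq_zero_iff_mem
      have h2 : I = Ideal.map μ (Ideal.span {u}) := by
        rw [Ideal.map_span, Set.image_singleton, hμu, Ideal.span_singleton_neg]
      have h3 : μ x ∈ Ideal.map μ (Ideal.span {u}) ↔ x ∈ Ideal.span {u} ⊔ RingHom.ker μ := by
        rw [← Ideal.mem_comap, Ideal.comap_map_of_surjective' μ hμs]
      rw [h1, h2, h3, hμker, ← Ideal.span_union]
      rw [show ({u} ∪ {MvPolynomial.C g} : Set R1) = {MvPolynomial.C g, u} from by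
        ext z; simp]
    have h4 := PR.main hP (ft_mv hA (r + 1)) (MvPolynomial.C g : R1) u E ρ hρs hρker hD
      (PR.mvAway hP hA1 hA g hAg (r + 1))
    have hE : Algebra.FiniteType k E := (ft_mv hA (r + 1)).of_surjective ρ hρs
    exact (hA1 E hE).mpr h4

end Pool.Agent.TH90.Cub
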