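import Pool.Agent.TH90.Cub.Main
import Pool.Agent.TH90.Cub.Reg

set_option autoImplicit false

open CategoryTheory AlgebraicGeometry

namespace Pool.Agent.TH90.Cub

/-- the middle term of an exact sequence is finitely generated if the outer ones are -/
theorem fg_mid {A B C : Type} [AddCommGroup A] [AddCommGroup B] [AddCommGroup C] (f : A →+ B)
    (g : B →+ C) (h : Function.Exact f g) (hA : AddGroup.FG A) (hC : AddGroup.FG C) :
    AddGroup.FG B := by
  have hA' : Module.Finite ℤ A := Module.Finite.iff_addGroup_fg.mpr hA
  have hC' : Module.Finite ℤ C := Module.Finite.iff_addGroup_fg.mpr hC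
  refine Module.Finite.iff_addGroup_fg.mp ?_
  have hN : IsNoetherian ℤ C := inferInstance
  refine ⟨Submodule.fg_of_fg_map_of_fg_inf_ker (f := g.toIntLinearMap) ?_ ?_⟩
  · exact IsNoetherian.noetherian _
  · have h1 : (⊤ ⊓ LinearMap.ker g.toIntLinearMap : Submodule ℤ B) =
        LinearMap.range f.toIntLinearMap := by
      ext x
      simp only [top_inf_eq, LinearMap.mem_ker, AddMonoidHom.coe_toIntLinearMap,
        LinearMap.mem_range]
      exact h x
    rw [h1]
    exact Module.Finite.iff_fg.mp inferInstance

theorem fg_iso {A B : Type} [AddCommGroup A] [AddCommGroup B] (e : A ≃+ B)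
    (hA : AddGroup.FG A) : AddGroup.FG B := by
  have hA' : Module.Finite ℤ A := Module.Finite.iff_addGroup_fg.mpr hA
  exact Module.Finite.iff_addGroup_fg.mp (Module.Finite.equiv e.toIntLinearEquiv)

theorem fg_subsingleton {A : Type} [AddCommGroup A] (h : Subsingleton A) : AddGroup.FG A := by
  have : Finite A := inferInstance
  exact inferInstance

/-- cubic hypersurfaces are smooth -/
theorem hyp_smooth_scheme (k A : Type) [CommRing k] [CommRing A] [Algebra k A] [Algebra.Smooth k A]
    {r : ℕ} (g : Fin r → A) : Smooth (str k (Hyp A g)) := by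
  have h1 : Algebra.Smooth k (Hyp A g) := hyp_smooth' k A g
  refine (HasRingHomProperty.Spec_iff (P := @Smooth)).mpr ?_
  have h2 : (algebraMap k (Hyp A g)).toAlgebra = (inferInstance : Algebra k (Hyp A g)) := by
    exact Algebra.algebra_ext _ _ fun _ => rfl
  change @Algebra.Smooth _ _ _ _ (algebraMap k (Hyp A g)).toAlgebra
  rw [h2]
  exact h1

theorem away_smooth_scheme (k A : Type) [CommRing k] [CommRing A] [Algebra k A]
    [Algebra.Smooth k A] (h : A) : Smooth (str k (Localization.Away h)) := by
  have h0 : Algebra.Smooth A (Localization.Away h) := Algebra.Smooth.of_isLocalization_Away h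
  have h1 : Algebra.Smooth k (Localization.Away h) := Algebra.Smooth.comp k A _
  refine (HasRingHomProperty.Spec_iff (P := @Smooth)).mpr ?_
  have h2 : (algebraMap k (Localization.Away h)).toAlgebra =
      (inferInstance : Algebra k (Localization.Away h)) := by
    exact Algebra.algebra_ext _ _ fun _ => rfl
  change @Algebra.Smooth _ _ _ _ (algebraMap k (Localization.Away h)).toAlgebra
  rw [h2]
  exact h1

theorem smooth_mv (k : Type) [CommRing k] (n : ℕ) : Algebra.Smooth k (MvPolynomial (Fin n) k) :=
  ⟨inferInstance, inferInstance⟩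

theorem str_affine {k A : Type} [CommRing k] [CommRing A] [Algebra k A] :
    IsAffineHom (str k A) := inferInstance

theorem ft_hyp {sep : Prop} {k : Type} [CommRing k] {n r : ℕ}
    (g : Fin r → MvPolynomial (Fin n) k) : FT sep k (str k (Hyp (MvPolynomial (Fin n) k) g)) := by
  apply ft_str
  have h1 : Algebra.FiniteType k (MvPolynomial (Fin r) (MvPolynomial (Fin n) k)) :=
    ft_mv inferInstance r
  exact h1.of_surjective (Ideal.Quotient.mkₐ k _) Ideal.Quotient.mk_surjective

theorem ft_gate {sep : Prop} {k : Type} [CommRing k] {n : ℕ}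
    (h : MvPolynomial (Fin n) k) : FT sep k (str k (Localization.Away h)) :=
  ft_str _ (ft_away inferInstance h)

end Pool.Agent.TH90.Cub
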